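import Pool.Agent.Y253.SM.Inv

/-! Commutators of families; families with a prescribed leading term. -/

open Finset PowerSeries
open H522R3.Spl (A X R E exg E_Grl coeff_exg)

noncomputable section

namespace Pool.Agent.Y253.SM

open OOc GamAux InvAux

theorem com : S_COM := by
  intro q k₁ k₂ c₁ c₂ h₁ i₁ h₂ i₂ hk₁ hk₂ hc₁ hc₂ hG₁ hG₂ hO₁ hO₂
  set m := k₁ + k₂ + 1 with hm
  set b : RR := EE (c₁ : ℂ) * h₂ * EE ((-c₁ : ℝ) : ℂ) with hb
  set bi : RR := EE (c₁ : ℂ) * i₂ * EE ((-c₁ : ℝ) : ℂ) with hbi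
  have g1 : Gam c₁ (c₂ + c₁) b bi := by
    have := gshift 0 c₂ c₁ _ _ hG₂
    rwa [zero_add] at this
  obtain ⟨inv1, inv1'⟩ := ginv _ _ _ _ hG₁
  obtain ⟨invb, invb'⟩ := ginv _ _ _ _ g1
  obtain ⟨ob, lb⟩ := oconj q k₂ c₁ (h₂ - 1) hO₂
  rw [← conj_sub_one, ← hb] at ob lb
  obtain ⟨r₁, h₁', i₁', hr₁, g2, o2⟩ := inv q m k₁ c₁ (c₂ + c₁) h₁ i₁ hk₁ hc₁ (by linarith) hG₁ hO₁
  have g3 : Gam 0 (c₂ + c₁) b bi := by
    have := gmul 0 c₁ (c₂ + c₁) _ _ _ _ (grest 0 c₁ hc₁) g1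
    rwa [one_mul, mul_one] at this
  obtain ⟨r₂, b', bi', hr₂, g4, o4⟩ := inv q m k₂ (c₂ + c₁) r₁ b bi hk₂ (by linarith) hr₁ g3 ob
  have g5 := gmul _ _ _ _ _ _ _ (gmul _ _ _ _ _ _ _ (gmul _ _ _ _ _ _ _ hG₁ g1) g2) g4
  refine ⟨r₂, h₁ * b * h₁' * b', _, by linarith, g5, ?_⟩
  -- comparison with the commutator
  have e1 : h₁' - i₁ = i₁ * (h₁ * h₁' - 1) := by
    rw [mul_sub, ← mul_assoc, inv1', one_mul, mul_one]
  have e2 : b' - bi = bi * (b * b' - 1) := by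
    rw [mul_sub, ← mul_assoc, invb', one_mul, mul_one]
  have o5 : OO q m (h₁' - i₁) := by
    rw [e1]
    have := (omul q 0 m _ _ (oo_zero q i₁) o2).1
    rwa [zero_add] at this
  have o6 : OO q m (b' - bi) := by
    rw [e2]
    have := (omul q 0 m _ _ (oo_zero q bi) o4).1
    rwa [zero_add] at this
  set f : RR := (h₁ - 1) * (b - 1) - (b - 1) * (h₁ - 1) with hf
  obtain ⟨f1, f2⟩ := omul q k₁ k₂ _ _ hO₁ ob
  obtain ⟨f3, f4⟩ := omul q k₂ k₁ _ _ ob hO₁
  rw [add_comm k₂ k₁] at f3 f4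
  have of : OO q (k₁ + k₂) f := oo_sub f1 f3
  have oi1 := (oinv q k₁ h₁ i₁ hk₁ inv1 hO₁).1
  have obi := (oinv q k₂ b bi hk₂ invb ob).1
  have oib : OO q 1 (i₁ * bi - 1) :=
    (oone q 1 i₁ bi le_rfl (oo_mono hk₁ oi1) (oo_mono hk₂ obi)).1
  have og : OO q m (f * (i₁ * bi - 1)) := (omul q (k₁ + k₂) 1 _ _ of oib).1
  have e3 : h₁ * b * i₁ * bi - 1 = f + f * (i₁ * bi - 1) := by
    have e4 : f = h₁ * b - b * h₁ := by
      rw [hf]
      simp only [sub_mul, mul_sub, one_mul, mul_one]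
      abel
    have e5 : b * h₁ * (i₁ * bi) = 1 := by
      rw [mul_assoc, ← mul_assoc h₁, inv1, one_mul, invb]
    rw [mul_sub, mul_one, add_sub_cancel, e4, sub_mul, e5]
    simp only [mul_assoc]
  have e6 : h₁ * b * h₁' * b' - 1 = f + (f * (i₁ * bi - 1) +
      (h₁ * b * (h₁' - i₁) * b' + h₁ * b * i₁ * (b' - bi))) := by
    have e7 : h₁ * b * h₁' * b' = h₁ * b * i₁ * bi + (h₁ * b * (h₁' - i₁) * b' +
        h₁ * b * i₁ * (b' - bi)) := by
      rw [mul_sub (h₁ * b), sub_mul, mul_sub (h₁ * b * i₁)]; abel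
    rw [← add_assoc f, ← e3, e7]; abel
  have o7 : OO q m (h₁ * b * (h₁' - i₁) * b') := by
    have a1 := (omul q 0 m _ _ (oo_zero q (h₁ * b)) o5).1
    rw [zero_add] at a1
    have a2 := (omul q m 0 _ _ a1 (oo_zero q b')).1
    rwa [add_zero] at a2
  have o8 : OO q m (h₁ * b * i₁ * (b' - bi)) := by
    have a1 := (omul q 0 m _ _ (oo_zero q (h₁ * b * i₁)) o6).1
    rwa [zero_add] at a1
  have o9 := oo_add og (oo_add o7 o8)
  refine ⟨?_, fun j hj => ?_⟩
  · rw [e6]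
    exact oo_add of (oo_mono (by omega) o9)
  · rw [e6, lc_add, lc_of_oo o9 (by omega) hj, add_zero, hf, lc_sub, f2 j hj, f4 j hj, map_sub,
      coeff_mul, coeff_mul, coeff_mul, coeff_mul]
    congr 1
    · refine sum_congr rfl fun p hp => ?_
      rw [HasAntidiagonal.mem_antidiagonal] at hp
      rw [lb p.2 (by omega)]
    · refine sum_congr rfl fun p hp => ?_
      rw [HasAntidiagonal.mem_antidiagonal] at hp
      rw [lb p.1 (by omega)]

namespace MonAux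

/-- product of series starting in degrees `a` and `b` -/
theorem mul_low {D D' : R} {a b : ℕ} (hD : ∀ i < a, coeff i D = 0) (hD' : ∀ i < b, coeff i D' = 0) :
    (∀ i < a + b, coeff i (D * D') = 0) ∧ coeff (a + b) (D * D') = coeff a D * coeff b D' := by
  constructor
  · intro i hi
    rw [coeff_mul]
    refine Finset.sum_eq_zero fun p hp => ?_
    rw [HasAntidiagonal.mem_antidiagonal] at hp
    rcases Nat.lt_or_ge p.1 a with h | h
    · rw [hD _ h, zero_mul]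
    · rw [hD' _ (by omega), mul_zero]
  · rw [coeff_mul, Finset.sum_eq_single (a, b)]
    · intro p hp hne
      rw [HasAntidiagonal.mem_antidiagonal] at hp
      rcases Nat.lt_or_ge p.1 a with h | h
      · rw [hD _ h, zero_mul]
      · have : p.2 < b := by
          by_contra hcon
          apply hne
          ext <;> simp <;> omega
        rw [hD' _ this, mul_zero]
    · intro hcon; exact absurd (by simp) hcon

theorem coeff_pow_zero (x y : Ae) (n : ℕ) : ((cst (y.coeff 0) + Polynomial.X * x) ^ n).coeff 0 =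
    (y.coeff 0) ^ n := by
  have : ∀ p : Ae, p.coeff 0 = Polynomial.constantCoeff p := fun p => rfl
  rw [this, map_pow, map_add, map_mul]
  congr 1
  have h1 : Polynomial.constantCoeff (Polynomial.X : Ae) = 0 := Polynomial.coeff_X_zero
  rw [h1, zero_mul, add_zero]
  exact Polynomial.coeff_C_zero

theorem ltx_pow_zero (c : ℝ) (a b : ℂ) (n : ℕ) :
    ((ltx c a b) ^ n).coeff 0 = ((c : ℂ) • (X false + X true)) ^ n := by
  have := coeff_pow_zero (cst (a • X false + b • X true))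
    (Polynomial.C ((c : ℂ) • (X false + X true))) n
  rwa [Polynomial.coeff_C_zero] at this

/-- the leading term of a letter -/
theorem base_fam (a b : ℂ) (q : ℕ) (hq : 2 ≤ q) :
    OO q 1 (lt 1 a b * EE ((-1 : ℝ) : ℂ) - 1) ∧
      (∀ i ≤ 0, coeff i (lc 1 (lt 1 a b * EE ((-1 : ℝ) : ℂ) - 1)) = 0) ∧
      coeff (0 + 1) (lc 1 (lt 1 a b * EE ((-1 : ℝ) : ℂ) - 1)) = a • X false + b • X true := by
  set f : RR := lt 1 a b - EE ((1 : ℝ) : ℂ) with hf
  have e1 : lt 1 a b * EE ((-1 : ℝ) : ℂ) - 1 = f * EE ((-1 : ℝ) : ℂ) := by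
    rw [hf, sub_mul, EE_canc]
  have ecoef : ∀ j, coeff j f = ((j.factorial : ℂ)⁻¹) • (ltx 1 a b) ^ j -
      ((j.factorial : ℂ)⁻¹) • (cst (((1 : ℝ) : ℂ) • (X false + X true))) ^ j := by
    intro j
    rw [hf, map_sub, lt, EE, coeff_exg, coeff_exg]
  have of : OO q 1 f := by
    intro j _ i hi
    have : i = 0 := by omega
    subst this
    rw [ecoef, Polynomial.coeff_sub, Polynomial.coeff_smul, Polynomial.coeff_smul, ltx_pow_zero,
      ← map_pow]
    change _ - _ • (Polynomial.C _).coeff 0 = 0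
    rw [Polynomial.coeff_C_zero, sub_self]
  have lf0 : coeff 0 (lc 1 f) = 0 := by
    rw [coeff_lc, ecoef, pow_zero, pow_zero, sub_self, Polynomial.coeff_zero]
  have lf1 : coeff 1 (lc 1 f) = a • X false + b • X true := by
    rw [coeff_lc, ecoef, pow_one, pow_one, Nat.factorial_one, Nat.cast_one, inv_one, one_smul,
      one_smul, ltx, add_sub_cancel_left]
    change (Polynomial.X * Polynomial.C _).coeff 1 = _
    rw [Polynomial.coeff_X_mul, Polynomial.coeff_C_zero]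
  obtain ⟨m1, m2⟩ := omul q 1 0 f (EE ((-1 : ℝ) : ℂ)) of (oo_zero _ _)
  rw [add_zero] at m1 m2
  rw [lc_zero_EE] at m2
  have lo : ∀ i < 1, coeff i (lc 1 f) = 0 := by
    intro i hi
    have : i = 0 := by omega
    subst this; exact lf0
  obtain ⟨n1, n2⟩ := mul_low (a := 1) (b := 0) (D' := E ((-1 : ℝ) : ℂ)) lo
    (fun i hi => absurd hi (by omega))
  rw [add_zero] at n1 n2
  rw [e1]
  refine ⟨m1, fun i hi => ?_, ?_⟩
  · have : i = 0 := by omega
    subst this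
    rw [m2 0 (by omega)]; exact n1 0 (by omega)
  · rw [zero_add, m2 1 (by omega), n2, lf1, coeff_zero_E, mul_one]

end MonAux

open MonAux

theorem mon : S_MON := by
  intro n v hv
  induction hv with
  | base b =>
    intro ω q hq
    obtain ⟨a', b', hab⟩ : ∃ a' b' : ℂ, a' • X false + b' • X true = ω • X b := by
      cases b
      · exact ⟨ω, 0, by simp⟩
      · exact ⟨0, ω, by simp⟩
    obtain ⟨h1, h2, h3⟩ := base_fam a' b' q (by omega)
    exact ⟨1, 1, _, _, le_rfl, zero_le_one, gbase a' b', h1, h2, by rw [h3, hab]⟩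
  | @brk j e b he ih =>
    intro ω q hq
    obtain ⟨k₁, c₁, h₁, i₁, hk₁, hc₁, hG₁, hO₁, hz₁, hl₁⟩ := ih ω q (by omega)
    obtain ⟨a', b', hab⟩ : ∃ a' b' : ℂ, a' • X false + b' • X true = X b := by
      cases b
      · exact ⟨1, 0, by simp⟩
      · exact ⟨0, 1, by simp⟩
    obtain ⟨hO₂, hz₂, hl₂⟩ := base_fam a' b' q (by omega)
    obtain ⟨r, h, hi, hr, hG, hO, hlc⟩ := com q k₁ 1 c₁ 1 h₁ i₁ _ _ hk₁ le_rfl hc₁ zero_le_one hG₁
      (gbase a' b') hO₁ hO₂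
    set D₁ := lc k₁ (h₁ - 1) with hD₁
    set D₂ := E (c₁ : ℂ) * lc 1 (lt 1 a' b' * EE ((-1 : ℝ) : ℂ) - 1) * E ((-c₁ : ℝ) : ℂ) with hD₂
    have lo₁ : ∀ i < j + 1, coeff i D₁ = 0 := fun i hi' => hz₁ i (by omega)
    have lo₂' : ∀ i < 1, coeff i (lc 1 (lt 1 a' b' * EE ((-1 : ℝ) : ℂ) - 1)) = 0 :=
      fun i hi' => hz₂ i (by omega)
    obtain ⟨lo₂, le₂⟩ := conj_low lo₂' (c₁ : ℂ) ((-c₁ : ℝ) : ℂ)
    rw [← hD₂] at lo₂ le₂
    rw [zero_add] at hl₂
    rw [hl₂, hab] at le₂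
    obtain ⟨p1, p2⟩ := mul_low lo₁ lo₂
    obtain ⟨p3, p4⟩ := mul_low lo₂ lo₁
    rw [add_comm 1 (j + 1)] at p3 p4
    refine ⟨k₁ + 1, r, h, hi, by omega, hr, hG, hO, fun i hi' => ?_, ?_⟩
    · rw [hlc i (by omega), map_sub, p1 i (by omega), p3 i (by omega), sub_zero]
    · rw [hlc _ (by omega), map_sub, p2, p4, hl₁, le₂, smul_sub, smul_mul_assoc, mul_smul_comm]

end Pool.Agent.Y253.SM
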