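import Pool.Agent.Y253.SM.Cone

/-! The main estimate. -/

open Finset PowerSeries Filter Topology
open H522R3.Spl (A X M L R W Wi E Rel Grl exg sz sc dil Maj exg_zero exg_add E_Grl E_mul W_Grl
  Wi_Grl W_Wi map_exg dil_dil dil_W dil_E W_append coeff_exg_zero)

noncomputable section

namespace Pool.Agent.Y253.SM

namespace Est

theorem ev_cst (z : ℂ) (a : A) : ev z (cst a) = a := by
  change Polynomial.eval₂ ((AlgHom.id ℂ A : A →ₐ[ℂ] A) : A →+* A) (algebraMap ℂ A z)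
    (Polynomial.C a) = a
  rw [Polynomial.eval₂_C]
  rfl

theorem evR_mul (z : ℂ) (f g : RR) : evR z (f * g) = evR z f * evR z g := by
  unfold evR; rw [map_mul]

theorem evR_add (z : ℂ) (f g : RR) : evR z (f + g) = evR z f + evR z g := by
  unfold evR; rw [map_add]

theorem evR_sub (z : ℂ) (f g : RR) : evR z (f - g) = evR z f - evR z g := by
  unfold evR; rw [map_sub]

theorem evR_one (z : ℂ) : evR z 1 = 1 := by
  unfold evR; rw [map_one]

theorem evR_EE (z c : ℂ) : evR z (EE c) = E c := by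
  unfold evR EE E
  rw [map_exg, ev_cst]

theorem EE_zero : EE 0 = 1 := by
  rw [EE, zero_smul, map_zero, exg_zero]

theorem EE_mul (a b : ℂ) : EE a * EE b = EE (a + b) := by
  rw [EE, EE, EE, exg_add, add_smul, map_add]
  have : Commute (a • (X false + X true)) (b • (X false + X true)) :=
    ((Commute.refl _).smul_left a).smul_right b
  exact this.map cst

theorem coeff_E_scale (η : ℝ) (j : ℕ) : coeff j (E (η : ℂ)) = ((η : ℂ)) ^ j • coeff j (E 1) := by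
  rw [← (E_Grl 1).coeff_dil, dil_E, mul_one]

/-- product with a series that vanishes up to degree `n` -/
theorem coeff_mul_low {D e : R} {n : ℕ} (hD : ∀ i ≤ n, coeff i D = 0) (he : coeff 0 e = 1) :
    (∀ j ≤ n, coeff j (D * e) = 0) ∧ coeff (n + 1) (D * e) = coeff (n + 1) D := by
  constructor
  · intro j hj
    rw [coeff_mul]
    refine Finset.sum_eq_zero fun p hp => ?_
    rw [HasAntidiagonal.mem_antidiagonal] at hp
    rw [hD p.1 (by omega), zero_mul]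
  · rw [coeff_mul, Finset.sum_eq_single (n + 1, 0)]
    · rw [he, mul_one]
    · intro p hp hne
      rw [HasAntidiagonal.mem_antidiagonal] at hp
      have : p.1 ≤ n := by
        by_contra hcon
        apply hne
        ext <;> simp <;> omega
      rw [hD p.1 this, zero_mul]
    · intro hcon; exact absurd (by simp) hcon

/-- bound for `coeff j (f * e) - s • coeff j (D * e)` -/
theorem coeff_mul_err {f D e : R} {q : ℕ} {s : ℂ} {δ BE : ℝ} (hδ : 0 ≤ δ)
    (hf : ∀ j < q, ‖coeff j f - s • coeff j D‖ ≤ δ) (hBE : ∀ j < q, ‖coeff j e‖ ≤ BE) :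
    ∀ j < q, ‖coeff j (f * e) - s • coeff j (D * e)‖ ≤ q * (δ * BE) := by
  intro j hj
  have hBE0 : 0 ≤ BE := (norm_nonneg _).trans (hBE j hj)
  have e1 : coeff j (f * e) - s • coeff j (D * e) =
      ∑ p ∈ antidiagonal j, (coeff p.1 f - s • coeff p.1 D) * coeff p.2 e := by
    rw [coeff_mul, coeff_mul, smul_sum, ← sum_sub_distrib]
    refine sum_congr rfl fun p _ => ?_
    rw [sub_mul, smul_mul_assoc]
  rw [e1]
  refine (norm_sum_le _ _).trans ?_
  have e2 : ∀ p ∈ antidiagonal j, ‖(coeff p.1 f - s • coeff p.1 D) * coeff p.2 e‖ ≤ δ * BE := by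
    intro p hp
    rw [HasAntidiagonal.mem_antidiagonal] at hp
    exact (norm_mul_le _ _).trans (mul_le_mul (hf _ (by omega)) (hBE _ (by omega))
      (norm_nonneg _) hδ)
  refine (Finset.sum_le_sum e2).trans ?_
  rw [Finset.sum_const, Finset.Nat.card_antidiagonal, nsmul_eq_mul]
  have : ((j + 1 : ℕ) : ℝ) ≤ q := by exact_mod_cast hj
  exact mul_le_mul_of_nonneg_right this (by positivity)

/-- the algebraic step: correcting a word by a scaled word -/
theorem correct {κ : ℝ} {n : ℕ} {R0 δ0 : ℝ} (hP : PP κ (n + 1) R0 δ0) {l1 : List (ℂ × ℂ)}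
    (hl1 : PosK κ l1) {e η : ℝ} (hη : 0 < η)
    (hclose : ∀ j ≤ n + 1, (η⁻¹) ^ j *
      ‖coeff j (Wi l1 * E (e : ℂ)) - coeff j (E (η : ℂ))‖ < δ0) :
    ∃ (w u : A) (l : List (ℂ × ℂ)), w ∈ L (n + 1) ∧ PosK κ l ∧
      Rel (n + 1 + 1) (W l) (E (e : ℂ)) w ∧
      ‖u‖ ≤ R0 ^ (n + 1 + 1) / (n + 1 + 1).factorial ∧
      w = ((η : ℂ)) ^ (n + 1 + 1) • u - coeff (n + 1 + 1) (Wi l1 * E (e : ℂ)) := by
  set k0 : R := Wi l1 * E (e : ℂ) with hk0
  have hk0G : Grl k0 := (Wi_Grl l1).mul (E_Grl _)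
  set kk : R := PowerSeries.map (dil ((η : ℂ))⁻¹ : A →+* A) k0 with hkk
  have hkkG : Grl kk := hk0G.dil _
  have hηC : ((η : ℂ)) ≠ 0 := by exact_mod_cast hη.ne'
  have hE1 : E 1 = PowerSeries.map (dil ((η : ℂ))⁻¹ : A →+* A) (E (η : ℂ)) := by
    rw [dil_E, inv_mul_cancel₀ hηC]
  have hc : ∀ j ≤ n + 1, ‖coeff j kk - coeff j (E 1)‖ < δ0 := by
    intro j hj
    rw [hE1, hkk, hk0G.coeff_dil, (E_Grl _).coeff_dil, ← smul_sub, norm_smul, norm_pow, norm_inv,
      Complex.norm_real, Real.norm_of_nonneg hη.le]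
    exact hclose j hj
  obtain ⟨l, h1, h2, h3⟩ := hP kk hkkG hc
  have hrel : Rel (n + 1 + 1) (W l) kk (coeff (n + 1 + 1) (W l) - coeff (n + 1 + 1) kk) :=
    ⟨fun j hj => h3 j (by omega), by abel⟩
  have hrel2 := hrel.dil (W_Grl l) hkkG (η : ℂ)
  rw [dil_W, hkk, dil_dil hk0G hηC] at hrel2
  have hrel3 := hrel2.left (a := W l1) (W_Grl _).one
  have h4 : W l1 * k0 = E (e : ℂ) := by rw [hk0, ← mul_assoc, W_Wi, one_mul]
  rw [h4, ← W_append] at hrel3
  refine ⟨_, coeff (n + 1 + 1) (W l), l1 ++ sc (η : ℂ) l, ?_, hl1.append (h1.sc hη), hrel3, ?_, ?_⟩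
  · exact Submodule.smul_mem _ _ ((W_Grl l).diff hkkG h3)
  · refine (Maj.W l (n + 1 + 1)).trans ?_
    have := H522R3.Spl.sz_nonneg l
    gcongr
  · rw [← hkk, smul_sub, hkk, hk0G.coeff_dil, smul_smul, ← mul_pow, mul_inv_cancel₀ hηC, one_pow,
      one_smul]

end Est

open Est in
theorem est (h1 : S_CLI) (h2 : S_EVC) (h3 : S_EVB) (h4 : S_oinv) (h5 : S_oconj) (h6 : S_ginv) :
    S_EST := by
  intro κ n R0 δ0 hκ hδ hP k c h hi v hk hc hG hO hz hlead
  obtain ⟨hhi, -⟩ := h6 _ _ _ _ hG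
  -- the family and its inverse
  set gi : RR := EE ((-c : ℝ) : ℂ) * hi with hgi
  have hG' : Fam c (h * EE (c : ℂ)) gi := by
    have := hG
    unfold Gam at this
    rwa [sub_zero, neg_zero, Complex.ofReal_zero, EE_zero, one_mul, mul_one, ← hgi] at this
  -- the deviation of the inverse
  set F : RR := EE ((-c : ℝ) : ℂ) * (hi - 1) * EE (c : ℂ) with hF
  obtain ⟨o1, o2⟩ := h4 (n + 3) k h hi hk hhi hO
  obtain ⟨o3, o4⟩ := h5 (n + 3) k (-c) (hi - 1) o1
  rw [neg_neg, ← hF] at o3 o4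
  set D : R := lc k F with hD
  have hlow0 : ∀ i ≤ n + 1, coeff i (lc k (hi - 1)) = 0 := by
    intro i hi'
    rw [o2 i (by omega), hz i hi', neg_zero]
  have hEone : ∀ s : ℂ, coeff 0 (E s) = 1 := fun s => (E_Grl s).one
  have hD1 : (∀ i ≤ n + 1, coeff i (lc k (hi - 1) * E (c : ℂ)) = 0) ∧
      coeff (n + 1 + 1) (lc k (hi - 1) * E (c : ℂ)) = coeff (n + 1 + 1) (lc k (hi - 1)) :=
    coeff_mul_low hlow0 (hEone _)
  have hDlow : ∀ i ≤ n + 1, coeff i D = 0 := by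
    intro i hi'
    rw [hD, o4 i (by omega), mul_assoc, coeff_mul]
    refine Finset.sum_eq_zero fun p hp => ?_
    rw [HasAntidiagonal.mem_antidiagonal] at hp
    rw [hD1.1 p.2 (by omega), mul_zero]
  have hDtop : coeff (n + 1 + 1) D = -v := by
    rw [hD, o4 _ (by omega), mul_assoc, coeff_mul, Finset.sum_eq_single (0, n + 1 + 1)]
    · rw [hEone, one_mul, hD1.2, o2 _ (by omega), hlead]
    · intro p hp hne
      rw [HasAntidiagonal.mem_antidiagonal] at hp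
      have : p.2 ≤ n + 1 := by
        by_contra hcon
        apply hne
        ext <;> simp <;> omega
      rw [hD1.1 p.2 this, mul_zero]
    · intro hcon; exact absurd (by simp) hcon
  obtain ⟨C0, hC0, hC0b⟩ := h3 (n + 3) k F o3
  -- constants
  set BE : ℝ := ∑ j ∈ Finset.range (n + 3), ‖coeff j (E 1)‖ with hBE
  have hBE0 : 0 ≤ BE := Finset.sum_nonneg fun _ _ => norm_nonneg _
  set C1 : ℝ := ((n + 3 : ℕ) : ℝ) * (C0 * BE) with hC1
  have hC1nn : 0 ≤ C1 := by positivity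
  set C2 : ℝ := |R0| ^ (n + 1 + 1) / (n + 1 + 1).factorial + ‖coeff (n + 1 + 1) (E 1)‖ + C1 + 1
    with hC2
  have hC2nn : 0 ≤ C2 := by positivity
  -- the threshold
  have hev := h2 κ c _ _ hκ hG'
  obtain ⟨ε₀, hε₀, hev'⟩ : ∃ ε₀ : ℝ, 0 < ε₀ ∧ ∀ ε : ℝ, 0 < ε → ε < ε₀ →
      Cl κ (evR (ε : ℂ) (h * EE (c : ℂ))) ∧ evR (ε : ℂ) (h * EE (c : ℂ)) * evR (ε : ℂ) gi = 1 := by
    rw [eventually_nhdsWithin_iff, Metric.eventually_nhds_iff] at hev
    obtain ⟨ε₀, hε₀, hh⟩ := hev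
    refine ⟨ε₀, hε₀, fun ε he1 he2 => ?_⟩
    have := hh (y := ε) (by rw [Real.dist_eq, sub_zero, abs_of_pos he1]; exact he2) he1
    exact ⟨this.1, this.2.2.2.1⟩
  refine ⟨C2, min (min 1 ε₀) (δ0 / (C1 + 1)), hC2nn,
    lt_min (lt_min one_pos hε₀) (by positivity), ?_⟩
  intro τ hτ hττ
  have hτ1 : τ < 1 := hττ.trans_le ((min_le_left _ _).trans (min_le_left _ _))
  have hτ2 : τ < ε₀ := hττ.trans_le ((min_le_left _ _).trans (min_le_right _ _))
  have hτ3 : (C1 + 1) * τ < δ0 := by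
    have := hττ.trans_le (min_le_right _ _)
    rw [lt_div_iff₀ (by positivity)] at this
    linarith
  set ε : ℝ := τ ^ (n + 1) with hε
  have hεpos : 0 < ε := by positivity
  have hετ : ε ≤ τ := pow_le_of_le_one hτ.le hτ1.le (by omega)
  have hε1 : ε ≤ 1 := hετ.trans hτ1.le
  set η : ℝ := τ ^ k with hη
  have hηpos : 0 < η := by positivity
  have hη1 : η ≤ 1 := pow_le_one₀ hτ.le hτ1.le
  obtain ⟨hcl, hinv⟩ := hev' ε hεpos (hετ.trans_lt hτ2)
  obtain ⟨l, hl1, -, hl3⟩ := h1 κ _ _ hcl hinv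
  set f : R := evR (ε : ℂ) F with hf
  -- identity
  have hid : evR (ε : ℂ) gi * E ((c + η : ℝ) : ℂ) = (1 + f) * E (η : ℂ) := by
    have e1 : F = gi * EE (c : ℂ) - 1 := by
      rw [hF, hgi, mul_sub, sub_mul, mul_one, EE_mul]
      have : ((-c : ℝ) : ℂ) + (c : ℂ) = 0 := by push_cast; ring
      rw [this, EE_zero]
    have e2 : f = evR (ε : ℂ) gi * E (c : ℂ) - 1 := by
      rw [hf, e1, evR_sub, evR_mul _ gi, evR_one, evR_EE]
    rw [e2, add_sub_cancel, mul_assoc (evR (ε : ℂ) gi), E_mul, ← Complex.ofReal_add]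
  have hEη : ∀ j < n + 3, ‖coeff j (E (η : ℂ))‖ ≤ BE := by
    intro j hj
    rw [coeff_E_scale, norm_smul, norm_pow, Complex.norm_real, Real.norm_of_nonneg hηpos.le]
    have e1 : η ^ j ≤ 1 := pow_le_one₀ hηpos.le hη1
    have e2 : ‖coeff j (E 1)‖ ≤ BE := Finset.single_le_sum
      (f := fun j => ‖coeff j (E 1)‖) (fun _ _ => norm_nonneg _) (Finset.mem_range.2 hj)
    have e3 := norm_nonneg (coeff j (E 1))
    nlinarith
  have herr := coeff_mul_err (q := n + 3) (s := (ε : ℂ) ^ k) (f := f) (D := D) (e := E (η : ℂ))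
    (δ := C0 * ε ^ (k + 1)) (BE := BE) (by positivity) (fun j hj => hC0b ε hεpos hε1 j hj) hEη
  have herr' : ∀ j < n + 3, ‖coeff j (f * E (η : ℂ)) - (ε : ℂ) ^ k • coeff j (D * E (η : ℂ))‖ ≤
      C1 * ε ^ (k + 1) := by
    intro j hj
    refine (herr j hj).trans (le_of_eq ?_)
    rw [hC1]; ring
  have hDE := coeff_mul_low (e := E (η : ℂ)) hDlow (hEone _)
  -- choice of the word
  obtain ⟨m, hm⟩ : ∃ m, ∀ j ∈ Finset.range (n + 3),
      ‖coeff j (Wi (l m) * E ((c + η : ℝ) : ℂ)) - coeff j ((1 + f) * E (η : ℂ))‖ < ε ^ (k + 1) := by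
    have e1 : ∀ᶠ m in atTop, ∀ j ∈ Finset.range (n + 3),
        ‖coeff j (Wi (l m) * E ((c + η : ℝ) : ℂ)) - coeff j ((1 + f) * E (η : ℂ))‖ <
          ε ^ (k + 1) := by
      rw [Filter.eventually_all_finset]
      intro j _
      have e2 : Tendsto (fun m => coeff j (Wi (l m) * E ((c + η : ℝ) : ℂ))) atTop
          (𝓝 (coeff j ((1 + f) * E (η : ℂ)))) := by
        rw [← hid]
        simp only [coeff_mul]
        exact tendsto_finsetSum _ fun p _ => (hl3 p.1).mul tendsto_const_nhds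
      have e3 := (e2.sub_const (coeff j ((1 + f) * E (η : ℂ)))).norm
      rw [sub_self, norm_zero] at e3
      exact e3.eventually_lt tendsto_const_nhds (by positivity)
    exact e1.exists
  have hm' : ∀ j < n + 3, ‖coeff j (Wi (l m) * E ((c + η : ℝ) : ℂ)) -
      coeff j ((1 + f) * E (η : ℂ))‖ < ε ^ (k + 1) := fun j hj => hm j (Finset.mem_range.2 hj)
  have hclose : ∀ j ≤ n + 1, (η⁻¹) ^ j *
      ‖coeff j (Wi (l m) * E ((c + η : ℝ) : ℂ)) - coeff j (E (η : ℂ))‖ < δ0 := by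
    intro j hj
    have e1 : coeff j (Wi (l m) * E ((c + η : ℝ) : ℂ)) - coeff j (E (η : ℂ)) =
        (coeff j (Wi (l m) * E ((c + η : ℝ) : ℂ)) - coeff j ((1 + f) * E (η : ℂ))) +
        (coeff j (f * E (η : ℂ)) - (ε : ℂ) ^ k • coeff j (D * E (η : ℂ))) := by
      rw [hDE.1 j hj, smul_zero, add_mul, one_mul, map_add]; abel
    have e2 : ‖coeff j (Wi (l m) * E ((c + η : ℝ) : ℂ)) - coeff j (E (η : ℂ))‖ ≤
        (C1 + 1) * ε ^ (k + 1) := by
      rw [e1]
      refine (norm_add_le _ _).trans ?_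
      have := hm' j (by omega)
      have := herr' j (by omega)
      linarith
    have e3 : (η⁻¹) ^ j ≤ (η⁻¹) ^ (n + 1) := pow_le_pow_right₀ ((one_le_inv₀ hηpos).2 hη1) hj
    calc (η⁻¹) ^ j * ‖coeff j (Wi (l m) * E ((c + η : ℝ) : ℂ)) - coeff j (E (η : ℂ))‖
        ≤ (η⁻¹) ^ (n + 1) * ((C1 + 1) * ε ^ (k + 1)) :=
          mul_le_mul e3 e2 (norm_nonneg _) (by positivity)
      _ = (C1 + 1) * τ ^ (n + 1) := by
          have e4 : ε ^ (k + 1) = η ^ (n + 1) * τ ^ (n + 1) := by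
            rw [hε, hη, ← pow_mul, ← pow_mul, ← pow_add]; congr 1; ring
          rw [e4, inv_pow]
          field_simp
      _ ≤ (C1 + 1) * τ := mul_le_mul_of_nonneg_left hετ (by positivity)
      _ < δ0 := hτ3
  obtain ⟨w, u, l', hw, hl', hrel, hu, hweq⟩ := correct hP (hl1 m) (e := c + η) hηpos hclose
  refine ⟨c + η, w, l', by linarith, hw, hl', hrel, ?_⟩
  have hpow : ((τ ^ ((n + 1) * k) : ℝ) : ℂ) = (ε : ℂ) ^ k := by
    rw [hε, ← Complex.ofReal_pow, ← pow_mul]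
  rw [hpow]
  -- the decomposition of the error
  set top := coeff (n + 1 + 1) (Wi (l m) * E ((c + η : ℝ) : ℂ)) with htop
  have e1 : w - (ε : ℂ) ^ k • v = (η : ℂ) ^ (n + 1 + 1) • (u - coeff (n + 1 + 1) (E 1)) -
      (top - coeff (n + 1 + 1) ((1 + f) * E (η : ℂ))) -
      (coeff (n + 1 + 1) (f * E (η : ℂ)) -
        (ε : ℂ) ^ k • coeff (n + 1 + 1) (D * E (η : ℂ))) := by
    rw [hweq, hDE.2, hDtop, add_mul, one_mul, map_add, coeff_E_scale η (n + 1 + 1), smul_sub,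
      smul_neg]
    abel
  rw [e1]
  have n1 : ‖(η : ℂ) ^ (n + 1 + 1) • (u - coeff (n + 1 + 1) (E 1))‖ ≤
      η ^ (n + 1 + 1) * (|R0| ^ (n + 1 + 1) / (n + 1 + 1).factorial +
        ‖coeff (n + 1 + 1) (E 1)‖) := by
    rw [norm_smul, norm_pow, Complex.norm_real, Real.norm_of_nonneg hηpos.le]
    refine mul_le_mul_of_nonneg_left ((norm_sub_le _ _).trans (add_le_add (hu.trans ?_) le_rfl))
      (by positivity)
    have : R0 ^ (n + 1 + 1) ≤ |R0| ^ (n + 1 + 1) := by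
      rw [← abs_pow]; exact le_abs_self _
    gcongr
  have n2 := hm' (n + 1 + 1) (by omega)
  have n3 := herr' (n + 1 + 1) (by omega)
  have p1 : η ^ (n + 1 + 1) ≤ τ ^ ((n + 1) * k + 1) := by
    rw [hη, ← pow_mul]
    refine pow_le_pow_of_le_one hτ.le hτ1.le ?_
    nlinarith
  have p2 : ε ^ (k + 1) ≤ τ ^ ((n + 1) * k + 1) := by
    rw [hε, ← pow_mul]
    refine pow_le_pow_of_le_one hτ.le hτ1.le ?_
    nlinarith
  have hnn : 0 ≤ |R0| ^ (n + 1 + 1) / (n + 1 + 1).factorial + ‖coeff (n + 1 + 1) (E 1)‖ := by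
    positivity
  calc ‖(η : ℂ) ^ (n + 1 + 1) • (u - coeff (n + 1 + 1) (E 1)) -
      (top - coeff (n + 1 + 1) ((1 + f) * E (η : ℂ))) -
      (coeff (n + 1 + 1) (f * E (η : ℂ)) -
        (ε : ℂ) ^ k • coeff (n + 1 + 1) (D * E (η : ℂ)))‖
      ≤ ‖(η : ℂ) ^ (n + 1 + 1) • (u - coeff (n + 1 + 1) (E 1))‖ +
        ‖top - coeff (n + 1 + 1) ((1 + f) * E (η : ℂ))‖ +
        ‖coeff (n + 1 + 1) (f * E (η : ℂ)) -
          (ε : ℂ) ^ k • coeff (n + 1 + 1) (D * E (η : ℂ))‖ :=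
        (norm_sub_le _ _).trans (add_le_add (norm_sub_le _ _) le_rfl)
    _ ≤ τ ^ ((n + 1) * k + 1) * (|R0| ^ (n + 1 + 1) / (n + 1 + 1).factorial +
        ‖coeff (n + 1 + 1) (E 1)‖) + τ ^ ((n + 1) * k + 1) + C1 * τ ^ ((n + 1) * k + 1) := by
        refine add_le_add (add_le_add (n1.trans (mul_le_mul_of_nonneg_right p1 hnn))
          (n2.le.trans p2)) (n3.trans (mul_le_mul_of_nonneg_left p2 hC1nn))
    _ = C2 * τ ^ ((n + 1) * k + 1) := by rw [hC2]; ring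

end Pool.Agent.Y253.SM
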