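import Pool.Agent.Y253.SM.Defs

/-! Calculus of `ε`-orders. -/

open Finset PowerSeries
open H522R3.Spl (A X R E exg map_exg coeff_exg)

noncomputable section

namespace Pool.Agent.Y253.SM

namespace OOc

theorem coeff_lc (k j : ℕ) (f : RR) : coeff j (lc k f) = (coeff j f).coeff k := by
  rw [lc, coeff_mk]

theorem oo_zero (q : ℕ) (f : RR) : OO q 0 f := fun _ _ _ hi => absurd hi (by omega)

theorem oo_mono {q k l : ℕ} (hkl : l ≤ k) {f : RR} (h : OO q k f) : OO q l f :=
  fun j hj i hi => h j hj i (by omega)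

theorem oo_succ {q k : ℕ} {f : RR} (h : OO q k f) (h' : ∀ j < q, coeff j (lc k f) = 0) :
    OO q (k + 1) f := by
  intro j hj i hi
  rcases Nat.lt_succ_iff_lt_or_eq.1 hi with h1 | h1
  · exact h j hj i h1
  · subst h1
    have := h' j hj
    rwa [coeff_lc] at this

theorem lc_of_oo {q k l : ℕ} {f : RR} (h : OO q l f) (hkl : k < l) {j : ℕ} (hj : j < q) :
    coeff j (lc k f) = 0 := by
  rw [coeff_lc]; exact h j hj k hkl

theorem oo_add {q k : ℕ} {f g : RR} (hf : OO q k f) (hg : OO q k g) : OO q k (f + g) := by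
  intro j hj i hi
  rw [map_add, Polynomial.coeff_add, hf j hj i hi, hg j hj i hi, add_zero]

theorem oo_neg {q k : ℕ} {f : RR} (hf : OO q k f) : OO q k (-f) := by
  intro j hj i hi
  rw [map_neg, Polynomial.coeff_neg, hf j hj i hi, neg_zero]

theorem oo_sub {q k : ℕ} {f g : RR} (hf : OO q k f) (hg : OO q k g) : OO q k (f - g) := by
  rw [sub_eq_add_neg]; exact oo_add hf (oo_neg hg)

theorem lc_add (k j : ℕ) (f g : RR) :
    coeff j (lc k (f + g)) = coeff j (lc k f) + coeff j (lc k g) := by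
  rw [coeff_lc, coeff_lc, coeff_lc, map_add, Polynomial.coeff_add]

theorem lc_neg (k j : ℕ) (f : RR) : coeff j (lc k (-f)) = -coeff j (lc k f) := by
  rw [coeff_lc, coeff_lc, map_neg, Polynomial.coeff_neg]

theorem lc_sub (k j : ℕ) (f g : RR) :
    coeff j (lc k (f - g)) = coeff j (lc k f) - coeff j (lc k g) := by
  rw [sub_eq_add_neg, lc_add, lc_neg, sub_eq_add_neg]

end OOc

open OOc

theorem omul : S_omul := by
  intro q k l f g hf hg
  have key : ∀ j < q, ∀ i, (coeff j (f * g)).coeff i =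
      ∑ p ∈ antidiagonal j, ∑ r ∈ antidiagonal i, (coeff p.1 f).coeff r.1 * (coeff p.2 g).coeff r.2 := by
    intro j _ i
    rw [coeff_mul, Polynomial.finsetSum_coeff]
    refine sum_congr rfl fun p _ => ?_
    rw [Polynomial.coeff_mul]
  constructor
  · intro j hj i hi
    rw [key j hj i]
    refine Finset.sum_eq_zero fun p hp => Finset.sum_eq_zero fun r hr => ?_
    rw [HasAntidiagonal.mem_antidiagonal] at hp hr
    rcases Nat.lt_or_ge r.1 k with h1 | h1
    · rw [hf p.1 (by omega) r.1 h1, zero_mul]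
    · rw [hg p.2 (by omega) r.2 (by omega), mul_zero]
  · intro j hj
    rw [coeff_lc, key j hj, coeff_mul]
    refine sum_congr rfl fun p hp => ?_
    rw [HasAntidiagonal.mem_antidiagonal] at hp
    rw [coeff_lc, coeff_lc, Finset.sum_eq_single (k, l)]
    · intro r hr hne
      rw [HasAntidiagonal.mem_antidiagonal] at hr
      rcases Nat.lt_or_ge r.1 k with h1 | h1
      · rw [hf p.1 (by omega) r.1 h1, zero_mul]
      · have : r.2 < l := by
          by_contra hcon
          apply hne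
          ext <;> simp <;> omega
        rw [hg p.2 (by omega) r.2 this, mul_zero]
    · intro hcon; exact absurd (by simp) hcon

theorem oone : S_oone := by
  intro q k u v hk hu hv
  have e : u * v - 1 = (u - 1) + (v - 1) + (u - 1) * (v - 1) := by
    rw [sub_mul, mul_sub, mul_one, one_mul]; abel
  obtain ⟨m1, m2⟩ := omul q k k (u - 1) (v - 1) hu hv
  refine ⟨?_, fun j hj => ?_⟩
  · rw [e]
    exact oo_add (oo_add hu hv) (oo_mono (by omega) m1)
  · rw [e, lc_add, lc_add, lc_of_oo m1 (by omega) hj, add_zero]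

theorem oinv : S_oinv := by
  intro q k h hi hk hinv hO
  have e1 : hi - 1 = -(h - 1) - (h - 1) * (hi - 1) := by
    rw [sub_mul, mul_sub, mul_one, one_mul, hinv]; abel
  have e2 : hi - 1 = -((h - 1) * hi) := by
    rw [sub_mul, hinv, one_mul]; abel
  have o1 : OO q k (hi - 1) := by
    rw [e2]
    exact oo_neg (omul q k 0 _ _ hO (oo_zero q hi)).1
  refine ⟨o1, fun j hj => ?_⟩
  have o2 := (omul q k k _ _ hO o1).1
  rw [e1, lc_sub, lc_neg, lc_of_oo o2 (by omega) hj, sub_zero]

theorem lc_zero_cst (f : R) : lc 0 (PowerSeries.map (cst : A →+* Ae) f) = f := by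
  ext j
  rw [coeff_lc, coeff_map]
  change (Polynomial.C (coeff j f)).coeff 0 = _
  rw [Polynomial.coeff_C_zero]

theorem EE_eq_map (c : ℂ) : EE c = PowerSeries.map (cst : A →+* Ae) (E c) := by
  rw [EE, E, map_exg]

theorem lc_zero_EE (c : ℂ) : lc 0 (EE c) = E c := by
  rw [EE_eq_map, lc_zero_cst]

theorem oconj : S_oconj := by
  intro q k s f hf
  obtain ⟨a1, a2⟩ := omul q 0 k (EE (s : ℂ)) f (oo_zero _ _) hf
  rw [zero_add] at a1 a2
  obtain ⟨b1, b2⟩ := omul q k 0 (EE (s : ℂ) * f) (EE ((-s : ℝ) : ℂ)) a1 (oo_zero _ _)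
  rw [add_zero] at b1 b2
  refine ⟨b1, fun j hj => ?_⟩
  rw [b2 j hj, lc_zero_EE, coeff_mul, coeff_mul]
  refine sum_congr rfl fun p hp => ?_
  rw [HasAntidiagonal.mem_antidiagonal] at hp
  rw [a2 p.1 (by omega), lc_zero_EE]

theorem sb_coeff (c : ℂ) (p : Ae) (i : ℕ) : (sb c p).coeff i = c ^ i • p.coeff i := by
  have h : ∀ p : Ae, sb c p = p.sum fun n a => Polynomial.monomial n (c ^ n • a) := by
    intro p
    change Polynomial.eval₂ ((cst : A →ₐ[ℂ] Ae) : A →+* Ae)
      (algebraMap ℂ Ae c * Polynomial.X) p = _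
    rw [Polynomial.eval₂_eq_sum]
    refine Finset.sum_congr rfl fun n _ => ?_
    beta_reduce
    have e1 : (algebraMap ℂ Ae c * Polynomial.X) ^ n = c ^ n • (Polynomial.X : Ae) ^ n := by
      rw [← Algebra.smul_def, smul_pow]
    rw [e1, mul_smul_comm]
    change c ^ n • (Polynomial.C (p.coeff n) * Polynomial.X ^ n) = _
    rw [Polynomial.C_mul_X_pow_eq_monomial, Polynomial.smul_monomial]
  rw [h p, Polynomial.sum_def, Polynomial.finsetSum_coeff]
  simp only [Polynomial.coeff_monomial]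
  rw [Finset.sum_ite_eq' p.support i]
  split_ifs with h1
  · rfl
  · rw [Polynomial.notMem_support_iff.1 h1, smul_zero]

theorem osb : S_osb := by
  intro q k c f hf
  refine ⟨fun j hj i hi => ?_, fun j => ?_⟩
  · rw [sbR, coeff_map]
    change (sb c (coeff j f)).coeff i = 0
    rw [sb_coeff, hf j hj i hi, smul_zero]
  · rw [coeff_lc, coeff_lc, sbR, coeff_map]
    exact sb_coeff c _ _

end Pool.Agent.Y253.SM
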