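import Pool.Agent.Y253.SM.Cone
import Pool.Agent.Y253.SM.OOc

/-! Values of families at small `ε > 0`; limits of words. -/

open Finset PowerSeries Filter Topology
open H522R3.Spl (A X M R W Wi E Rel Grl exg sz sc dil Maj map_exg exg_neg exg_neg' W_append sz_append
  linv W_linv Wi_W W_Wi Wi_Grl W_Grl smulX_mem)

noncomputable section

namespace Pool.Agent.Y253.SM

open OOc

namespace EvAux

theorem ev_cst (z : ℂ) (a : A) : ev z (cst a) = a := by
  change Polynomial.eval₂ ((AlgHom.id ℂ A : A →ₐ[ℂ] A) : A →+* A) (algebraMap ℂ A z)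
    (Polynomial.C a) = a
  rw [Polynomial.eval₂_C]
  rfl

theorem ev_X (z : ℂ) : ev z Polynomial.X = algebraMap ℂ A z := by
  change Polynomial.eval₂ ((AlgHom.id ℂ A : A →ₐ[ℂ] A) : A →+* A) (algebraMap ℂ A z)
    Polynomial.X = _
  rw [Polynomial.eval₂_X]

theorem ev_sum (z : ℂ) (p : Ae) : ev z p = ∑ i ∈ p.support, z ^ i • p.coeff i := by
  change Polynomial.eval₂ ((AlgHom.id ℂ A : A →ₐ[ℂ] A) : A →+* A) (algebraMap ℂ A z) p = _
  rw [Polynomial.eval₂_eq_sum, Polynomial.sum_def]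
  refine Finset.sum_congr rfl fun i _ => ?_
  change p.coeff i * (algebraMap ℂ A z) ^ i = _
  rw [← map_pow, ← Algebra.commutes, ← Algebra.smul_def]

theorem ev_ltx (z : ℂ) (c : ℝ) (a b : ℂ) : ev z (ltx c a b) =
    ((c : ℂ) + z * a) • X false + ((c : ℂ) + z * b) • X true := by
  rw [ltx, map_add, map_mul, ev_cst, ev_cst, ev_X, ← Algebra.smul_def, smul_add, smul_add,
    smul_smul, smul_smul, add_smul, add_smul]
  abel

theorem evR_mul (z : ℂ) (f g : RR) : evR z (f * g) = evR z f * evR z g := by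
  unfold evR; rw [map_mul]

theorem evR_one (z : ℂ) : evR z 1 = 1 := by
  unfold evR; rw [map_one]

theorem evR_lt (z : ℂ) (c : ℝ) (a b : ℂ) : evR z (lt c a b) =
    exg (((c : ℂ) + z * a) • X false + ((c : ℂ) + z * b) • X true) := by
  unfold evR lt
  rw [map_exg, ev_ltx]

theorem evR_lti (z : ℂ) (c : ℝ) (a b : ℂ) : evR z (lti c a b) =
    exg (-(((c : ℂ) + z * a) • X false + ((c : ℂ) + z * b) • X true)) := by
  unfold evR lti
  rw [map_exg, map_neg, ev_ltx]

theorem sec_small {κ : ℝ} (hκ : 0 < κ) {c : ℝ} (hc : 0 < c) (a : ℂ) :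
    ∀ᶠ ε : ℝ in 𝓝[>] 0, Sec κ ((c : ℂ) + (ε : ℂ) * a) := by
  have h1 : Continuous fun ε : ℝ => κ * ((c : ℂ) + (ε : ℂ) * a).re - |((c : ℂ) + (ε : ℂ) * a).im| := by
    fun_prop
  have h2 : ∀ᶠ ε : ℝ in 𝓝 0, 0 < κ * ((c : ℂ) + (ε : ℂ) * a).re - |((c : ℂ) + (ε : ℂ) * a).im| := by
    refine continuousAt_const.eventually_lt h1.continuousAt ?_
    simp
    positivity
  refine (h2.filter_mono nhdsWithin_le_nhds).mono fun ε h => ?_
  unfold Sec
  linarith

theorem Cl_one (κ : ℝ) : Cl κ 1 :=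
  ⟨0, fun _ => [], fun _ p hp => absurd hp (by simp), fun _ => le_refl _,
    fun j => by simp only [W]; exact tendsto_const_nhds⟩

theorem lin_mem (a b : ℂ) : a • X false + b • X true ∈ M :=
  Submodule.add_mem _ (smulX_mem _ _) (smulX_mem _ _)

end EvAux

open EvAux

theorem evc (h1 : S_TRO) (h2 : S_CLM) : S_EVC := by
  intro κ t g gi hκ hF
  induction hF with
  | one =>
    refine Eventually.of_forall fun ε => ?_
    rw [evR_one]
    exact ⟨Cl_one κ, Grl.one', Grl.one', by rw [mul_one], by rw [mul_one]⟩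
  | @cons t g gi c a b hc hF ih =>
    filter_upwards [ih, sec_small hκ hc a, sec_small hκ hc b] with ε e1 e2 e3
    obtain ⟨i1, i2, i3, i4, i5⟩ := e1
    rw [evR_mul, evR_mul, evR_lt, evR_lti]
    set x := ((c : ℂ) + (ε : ℂ) * a) • X false + ((c : ℂ) + (ε : ℂ) * b) • X true with hx
    refine ⟨h2 κ _ _ (h1 κ _ _ hκ e2 e3) i1, (Grl.ex (lin_mem _ _)).mul i2,
      i3.mul (Grl.ex (Submodule.neg_mem _ (lin_mem _ _))), ?_, ?_⟩
    · calc exg x * evR (ε : ℂ) g * (evR (ε : ℂ) gi * exg (-x))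
          = exg x * (evR (ε : ℂ) g * evR (ε : ℂ) gi) * exg (-x) := by simp only [mul_assoc]
        _ = 1 := by rw [i4, mul_one, exg_neg]
    · calc evR (ε : ℂ) gi * exg (-x) * (exg x * evR (ε : ℂ) g)
          = evR (ε : ℂ) gi * (exg (-x) * exg x) * evR (ε : ℂ) g := by simp only [mul_assoc]
        _ = 1 := by rw [exg_neg', mul_one, i5]

theorem evb : S_EVB := by
  intro q k f hf
  refine ⟨∑ j ∈ Finset.range q, ∑ i ∈ (coeff j f).support, ‖(coeff j f).coeff i‖,
    Finset.sum_nonneg fun _ _ => Finset.sum_nonneg fun _ _ => norm_nonneg _, ?_⟩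
  intro ε hε hε1 j hj
  have e1 : coeff j (evR (ε : ℂ) f) = ∑ i ∈ (coeff j f).support, (ε : ℂ) ^ i • (coeff j f).coeff i := by
    unfold evR
    rw [coeff_map]
    exact ev_sum _ _
  have e2 : (ε : ℂ) ^ k • coeff j (lc k f) =
      ∑ i ∈ (coeff j f).support, if i = k then (ε : ℂ) ^ i • (coeff j f).coeff i else 0 := by
    rw [Finset.sum_ite_eq' (coeff j f).support k, coeff_lc]
    split_ifs with h
    · rfl
    · rw [Polynomial.notMem_support_iff.1 h, smul_zero]
  rw [e1, e2, ← Finset.sum_sub_distrib]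
  have e3 : ∀ i ∈ (coeff j f).support, ‖(ε : ℂ) ^ i • (coeff j f).coeff i -
      (if i = k then (ε : ℂ) ^ i • (coeff j f).coeff i else 0)‖ ≤
        ‖(coeff j f).coeff i‖ * ε ^ (k + 1) := by
    intro i _
    split_ifs with h
    · rw [sub_self, norm_zero]; positivity
    · rw [sub_zero]
      rcases Nat.lt_or_ge i k with h1 | h1
      · rw [hf j hj i h1, smul_zero, norm_zero, zero_mul]
      · rw [norm_smul, norm_pow, Complex.norm_real, Real.norm_of_nonneg hε.le, mul_comm]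
        exact mul_le_mul_of_nonneg_left (pow_le_pow_of_le_one hε.le hε1 (by omega)) (norm_nonneg _)
  refine (norm_sum_le _ _).trans ((Finset.sum_le_sum e3).trans ?_)
  rw [← Finset.sum_mul]
  refine mul_le_mul_of_nonneg_right ?_ (by positivity)
  exact Finset.single_le_sum (f := fun j => ∑ i ∈ (coeff j f).support, ‖(coeff j f).coeff i‖)
    (fun _ _ => Finset.sum_nonneg fun _ _ => norm_nonneg _) (Finset.mem_range.2 hj)

theorem clm : S_CLM := by
  rintro κ g g' ⟨r, l, h1, h2, h3⟩ ⟨r', l', h1', h2', h3'⟩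
  refine ⟨r + r', fun m => l m ++ l' m, fun m => (h1 m).append (h1' m), fun m => ?_, fun j => ?_⟩
  · rw [sz_append]; exact add_le_add (h2 m) (h2' m)
  · simp only [W_append, coeff_mul]
    exact tendsto_finsetSum _ fun p _ => (h3 p.1).mul (h3' p.2)

theorem sz_linv : ∀ l : List (ℂ × ℂ), sz (linv l) = sz l
  | [] => rfl
  | p :: l => by
    rw [linv, sz_append, sz_linv l]
    simp only [sz, norm_neg, norm_zero]
    ring

theorem Maj_Wi (l : List (ℂ × ℂ)) : Maj (Wi l) (sz l) := by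
  have := Maj.W (linv l)
  rwa [W_linv, sz_linv] at this

theorem cli : S_CLI := by
  rintro κ g gi ⟨r, l, h1, h2, h3⟩ hg
  refine ⟨l, h1, h3, fun j => ?_⟩
  have hid : ∀ m, Wi (l m) - gi = Wi (l m) * (g - W (l m)) * gi := by
    intro m
    rw [mul_sub, sub_mul, Wi_W, one_mul, mul_assoc, hg, mul_one]
  have hr : 0 ≤ r := (H522R3.Spl.sz_nonneg (l 0)).trans (h2 0)
  have hbd : ∀ m a, ‖coeff a (Wi (l m))‖ ≤ r ^ a / a.factorial := by
    intro m a
    refine (Maj_Wi (l m) a).trans ?_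
    have := H522R3.Spl.sz_nonneg (l m)
    have := h2 m
    gcongr
  rw [tendsto_iff_norm_sub_tendsto_zero]
  have e1 : ∀ m, ‖coeff j (Wi (l m)) - coeff j gi‖ ≤
      ∑ p ∈ antidiagonal j, ∑ s ∈ antidiagonal p.1,
        (r ^ s.1 / s.1.factorial) * ‖coeff s.2 (W (l m)) - coeff s.2 g‖ * ‖coeff p.2 gi‖ := by
    intro m
    rw [← map_sub, hid, coeff_mul]
    refine (norm_sum_le _ _).trans (Finset.sum_le_sum fun p _ => ?_)
    rw [coeff_mul, Finset.sum_mul]
    refine (norm_sum_le _ _).trans (Finset.sum_le_sum fun s _ => ?_)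
    refine (norm_mul_le _ _).trans (mul_le_mul_of_nonneg_right ?_ (norm_nonneg _))
    refine (norm_mul_le _ _).trans (mul_le_mul (hbd m _) ?_ (norm_nonneg _) (by positivity))
    rw [map_sub, norm_sub_rev]
  refine squeeze_zero (fun _ => norm_nonneg _) e1 ?_
  have e2 : Tendsto (fun m => ∑ p ∈ antidiagonal j, ∑ s ∈ antidiagonal p.1,
        (r ^ s.1 / s.1.factorial) * ‖coeff s.2 (W (l m)) - coeff s.2 g‖ * ‖coeff p.2 gi‖) atTop
      (𝓝 (∑ p ∈ antidiagonal j, ∑ s ∈ antidiagonal p.1,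
        (r ^ s.1 / s.1.factorial) * 0 * ‖coeff p.2 gi‖)) := by
    refine tendsto_finsetSum _ fun p _ => tendsto_finsetSum _ fun s _ => ?_
    exact ((tendsto_iff_norm_sub_tendsto_zero.1 (h3 s.2)).const_mul _).mul_const _
  have e3 : (∑ p ∈ antidiagonal j, ∑ s ∈ antidiagonal p.1,
        (r ^ s.1 / (s.1.factorial : ℝ)) * 0 * ‖coeff p.2 gi‖) = 0 := by simp
  rwa [e3] at e2

end Pool.Agent.Y253.SM
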