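import Pool.Agent.Y253.SM.Cone

/-! The Trotter formula in the free algebra. -/

open Finset PowerSeries Filter Topology
open H522R3.Spl (A X M L R W Wi E Rel Grl exg sz sc dil Maj exg_zero exg_add coeff_one_W1
  coeff_exg coeff_exg_one coeff_exg_zero dil_W dil_exg smulX_mem W_Grl norm_X)

noncomputable section

namespace Pool.Agent.Y253.SM

namespace TroAux

def Maj2 (g : R) (C s : ℝ) : Prop := ∀ n, ‖coeff n g‖ ≤ C * (s ^ n / n.factorial)

theorem sum_exp (r s : ℝ) (n : ℕ) : ∑ p ∈ antidiagonal n,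
    (r ^ p.1 / (p.1.factorial : ℝ)) * (s ^ p.2 / (p.2.factorial : ℝ)) =
      (r + s) ^ n / (n.factorial : ℝ) := by
  rw [(Commute.all r s).add_pow', sum_div]
  refine sum_congr rfl fun p hp => ?_
  rw [HasAntidiagonal.mem_antidiagonal] at hp
  rw [nsmul_eq_mul]
  have h1 := Nat.add_choose_mul_factorial_mul_factorial p.1 p.2
  have h2 : ((n.choose p.1 : ℝ)) * (p.1.factorial : ℝ) * (p.2.factorial : ℝ) = (n.factorial : ℝ) := by
    rw [← hp]
    rw [Nat.choose_symm_add] at *
    exact_mod_cast (by rw [← Nat.choose_symm_add] at h1; rw [Nat.choose_symm_add] at h1; exact h1)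
  have ha : (p.1.factorial : ℝ) ≠ 0 := by exact_mod_cast p.1.factorial_ne_zero
  have hb : (p.2.factorial : ℝ) ≠ 0 := by exact_mod_cast p.2.factorial_ne_zero
  have hc : (n.factorial : ℝ) ≠ 0 := by exact_mod_cast n.factorial_ne_zero
  field_simp
  linear_combination (-(r ^ p.1 * s ^ p.2)) * h2

theorem Maj2.mul_left {g h : R} {C r s : ℝ} (hr : 0 ≤ r) (hg : Maj g r) (hh : Maj2 h C s) :
    Maj2 (g * h) C (r + s) := by
  intro n
  rw [coeff_mul, ← sum_exp, mul_sum]
  refine (norm_sum_le _ _).trans (sum_le_sum fun p _ => ?_)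
  refine (norm_mul_le _ _).trans ((mul_le_mul (hg _) (hh _) (norm_nonneg _)
    (by positivity)).trans (le_of_eq (by ring)))

theorem Maj2.mul_right {g h : R} {C r s : ℝ} (hs : 0 ≤ s) (hC : 0 ≤ C) (hr : 0 ≤ r)
    (hg : Maj2 g C r) (hh : Maj h s) : Maj2 (g * h) C (r + s) := by
  intro n
  rw [coeff_mul, ← sum_exp, mul_sum]
  refine (norm_sum_le _ _).trans (sum_le_sum fun p _ => ?_)
  refine (norm_mul_le _ _).trans ((mul_le_mul (hg _) (hh _) (norm_nonneg _)
    (by positivity)).trans (le_of_eq (by ring)))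

theorem Maj2.add {g h : R} {C C' s : ℝ} (hg : Maj2 g C s) (hh : Maj2 h C' s) :
    Maj2 (g + h) (C + C') s := by
  intro n
  rw [map_add, add_mul]
  exact (norm_add_le _ _).trans (add_le_add (hg n) (hh n))

theorem Maj2.mono {g : R} {C s s' : ℝ} (hC : 0 ≤ C) (hs : 0 ≤ s) (hss : s ≤ s') (hg : Maj2 g C s) :
    Maj2 g C s' := by
  intro n
  refine (hg n).trans ?_
  gcongr

theorem Maj.pow {g : R} {r : ℝ} (hr : 0 ≤ r) (hg : Maj g r) : ∀ n : ℕ, Maj (g ^ n) (n * r)
  | 0 => by rw [pow_zero, Nat.cast_zero, zero_mul]; exact Maj.one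
  | n + 1 => by
    rw [pow_succ, Nat.cast_succ, add_mul, one_mul]
    exact Maj.mul (by positivity) hr (Maj.pow hr hg n) hg

/-- telescoping -/
theorem Maj2.pow_sub {P Q : R} {C r s : ℝ} (hr : 0 ≤ r) (hs : 0 ≤ s) (hC : 0 ≤ C) (hP : Maj P r)
    (hQ : Maj Q r) (hPQ : Maj2 (P - Q) C s) : ∀ n : ℕ, Maj2 (P ^ n - Q ^ n) (n * C) (n * r + s)
  | 0 => by
    intro j
    rw [pow_zero, pow_zero, sub_self, map_zero, norm_zero, Nat.cast_zero, zero_mul, zero_mul]
  | n + 1 => by
    have e : P ^ (n + 1) - Q ^ (n + 1) = P ^ n * (P - Q) + (P ^ n - Q ^ n) * Q := by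
      rw [pow_succ, pow_succ, mul_sub, sub_mul]; abel
    have h1 := Maj2.mul_left (by positivity) (Maj.pow hr hP n) hPQ
    have h2 := Maj2.mul_right hr (by positivity) (by positivity)
      (Maj2.pow_sub hr hs hC hP hQ hPQ n) hQ
    have h1' : Maj2 (P ^ n * (P - Q)) C (((n + 1 : ℕ) : ℝ) * r + s) := by
      refine h1.mono hC (by positivity) ?_
      push_cast; nlinarith
    have h2' : Maj2 ((P ^ n - Q ^ n) * Q) (n * C) (((n + 1 : ℕ) : ℝ) * r + s) := by
      refine h2.mono (by positivity) (by positivity) ?_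
      push_cast; nlinarith
    rw [e]
    have h3 := h1'.add h2'
    have e2 : C + n * C = ((n + 1 : ℕ) : ℝ) * C := by push_cast; ring
    rwa [e2] at h3

theorem norm_lin_le (a b : ℂ) : ‖a • X false + b • X true‖ ≤ ‖a‖ + ‖b‖ := by
  refine (norm_add_le _ _).trans ?_
  rw [norm_smul, norm_smul, norm_X, norm_X, mul_one, mul_one]

theorem Maj_exg {x : A} {r : ℝ} (hx : ‖x‖ ≤ r) : Maj (exg x) r := by
  intro n
  rw [coeff_exg, norm_smul, norm_inv]
  have h2 : ‖(n.factorial : ℂ)‖ = n.factorial := by simp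
  rw [h2, div_eq_inv_mul]
  refine mul_le_mul_of_nonneg_left ((norm_pow_le _ _).trans ?_) (by positivity)
  exact pow_le_pow_left₀ (norm_nonneg _) hx n

theorem W_replicate (p : ℂ × ℂ) : ∀ n : ℕ, W (List.replicate n p) = W [p] ^ n
  | 0 => by rw [pow_zero]; rfl
  | n + 1 => by
    rw [List.replicate_succ, pow_succ', ← W_replicate p n]
    change exg (p.2 • X true) * exg (p.1 • X false) * W (List.replicate n p) =
      exg (p.2 • X true) * exg (p.1 • X false) * 1 * W (List.replicate n p)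
    rw [mul_one]

theorem exg_pow (x : A) : ∀ n : ℕ, exg x ^ n = exg ((n : ℂ) • x)
  | 0 => by rw [pow_zero, Nat.cast_zero, zero_smul, exg_zero]
  | n + 1 => by
    rw [pow_succ, exg_pow x n, exg_add ((Commute.refl x).smul_left _), Nat.cast_succ, add_smul,
      one_smul]

theorem sz_replicate (p : ℂ × ℂ) : ∀ n : ℕ, sz (List.replicate n p) = n * (‖p.1‖ + ‖p.2‖)
  | 0 => by simp [sz]
  | n + 1 => by
    rw [List.replicate_succ, sz, sz_replicate p n]; push_cast; ring

end TroAux

open TroAux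

theorem tro : S_TRO := by
  intro κ a b hκ ha hb
  set r : ℝ := ‖a‖ + ‖b‖ with hr
  have hr0 : 0 ≤ r := by positivity
  set x : A := a • X false + b • X true with hx
  have hxM : x ∈ M := Submodule.add_mem _ (smulX_mem _ _) (smulX_mem _ _)
  refine ⟨r, fun m => List.replicate (m + 1) (((((m : ℝ) + 1)⁻¹ : ℝ) : ℂ) * a,
    ((((m : ℝ) + 1)⁻¹ : ℝ) : ℂ) * b), fun m => ?_, fun m => ?_, fun j => ?_⟩
  · intro p hp
    rw [List.eq_of_mem_replicate hp]
    have : 0 < ((m : ℝ) + 1)⁻¹ := by positivity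
    exact ⟨ha.mul this, hb.mul this⟩
  · rw [sz_replicate]
    simp only
    rw [norm_mul, norm_mul, Complex.norm_real, Real.norm_of_nonneg (by positivity), ← mul_add, ← hr]
    push_cast
    rw [← mul_assoc, mul_inv_cancel₀ (by positivity), one_mul]
  · -- convergence
    have key : ∀ m : ℕ, ‖coeff j (W (List.replicate (m + 1) (((((m : ℝ) + 1)⁻¹ : ℝ) : ℂ) * a,
        ((((m : ℝ) + 1)⁻¹ : ℝ) : ℂ) * b))) - coeff j (exg x)‖ ≤
          (2 * ((2 * r) ^ j / j.factorial)) * (1 / ((m : ℝ) + 1)) := by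
      intro m
      set N : ℝ := (m : ℝ) + 1 with hN
      have hNpos : 0 < N := by positivity
      have hN1 : 1 ≤ N := by rw [hN]; linarith [(Nat.cast_nonneg m : (0:ℝ) ≤ m)]
      set P : R := W [(((N⁻¹ : ℝ) : ℂ) * a, ((N⁻¹ : ℝ) : ℂ) * b)] with hP
      set Q : R := exg (((N⁻¹ : ℝ) : ℂ) • x) with hQ
      have hPd : P = PowerSeries.map (dil ((N⁻¹ : ℝ) : ℂ) : A →+* A) (W [(a, b)]) := by
        rw [dil_W]; rfl
      have hQd : Q = PowerSeries.map (dil ((N⁻¹ : ℝ) : ℂ) : A →+* A) (exg x) := by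
        rw [dil_exg _ hxM]
      have hQN : Q ^ (m + 1) = exg x := by
        rw [hQ, exg_pow, smul_smul]
        have : (((m + 1 : ℕ) : ℂ)) * ((N⁻¹ : ℝ) : ℂ) = 1 := by
          rw [hN]; push_cast
          exact mul_inv_cancel₀ (by exact_mod_cast (Nat.succ_ne_zero m))
        rw [this, one_smul]
      have nrm : ‖((N⁻¹ : ℝ) : ℂ)‖ = N⁻¹ := by
        rw [Complex.norm_real, Real.norm_of_nonneg (by positivity)]
      have mP : Maj P (r / N) := by
        have := Maj.W [(((N⁻¹ : ℝ) : ℂ) * a, ((N⁻¹ : ℝ) : ℂ) * b)]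
        have e : sz [(((N⁻¹ : ℝ) : ℂ) * a, ((N⁻¹ : ℝ) : ℂ) * b)] = r / N := by
          simp only [sz]
          rw [norm_mul, norm_mul, nrm, hr]; field_simp; ring
        rwa [e] at this
      have mQ : Maj Q (r / N) := by
        refine Maj_exg ?_
        rw [norm_smul, nrm, div_eq_inv_mul]
        exact mul_le_mul_of_nonneg_left (norm_lin_le a b) (by positivity)
      have mPQ : Maj2 (P - Q) (2 / N ^ 2) r := by
        intro i
        rw [map_sub, hPd, hQd, (W_Grl _).coeff_dil, (Grl.ex hxM).coeff_dil, ← smul_sub, norm_smul,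
          norm_pow, nrm]
        rcases Nat.lt_or_ge i 2 with h2 | h2
        · have : coeff i (W [(a, b)]) - coeff i (exg x) = 0 := by
            interval_cases i
            · rw [(W_Grl _).one, coeff_exg_zero, sub_self]
            · rw [coeff_one_W1, coeff_exg_one, sub_self]
          rw [this, norm_zero, mul_zero]
          positivity
        · have e1 : ‖coeff i (W [(a, b)]) - coeff i (exg x)‖ ≤ 2 * (r ^ i / i.factorial) := by
            have f1 := Maj.W [(a, b)] i
            have f2 := Maj_exg (norm_lin_le a b) i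
            have f3 : sz [(a, b)] = r := by simp [sz, hr]
            rw [f3] at f1
            have := norm_sub_le (coeff i (W [(a, b)])) (coeff i (exg x))
            linarith
          have e2 : N⁻¹ ^ i ≤ N⁻¹ ^ 2 :=
            pow_le_pow_of_le_one (by positivity) (inv_le_one_of_one_le₀ hN1) h2
          calc N⁻¹ ^ i * ‖coeff i (W [(a, b)]) - coeff i (exg x)‖
              ≤ N⁻¹ ^ 2 * (2 * (r ^ i / i.factorial)) :=
                mul_le_mul e2 e1 (norm_nonneg _) (by positivity)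
            _ = 2 / N ^ 2 * (r ^ i / i.factorial) := by
                rw [inv_pow]; field_simp
      have h3 := Maj2.pow_sub (by positivity) hr0 (by positivity) mP mQ mPQ (m + 1) j
      rw [hQN, map_sub, ← W_replicate] at h3
      refine h3.trans (le_of_eq ?_)
      have e3 : (((m + 1 : ℕ) : ℝ)) = N := by rw [hN]; push_cast; ring
      rw [e3, mul_div_cancel₀ r hNpos.ne']
      rw [show r + r = 2 * r by ring]
      field_simp
    rw [tendsto_iff_norm_sub_tendsto_zero]
    refine squeeze_zero (fun _ => norm_nonneg _) key ?_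
    have := (tendsto_one_div_add_atTop_nhds_zero_nat (𝕜 := ℝ)).const_mul
      (2 * ((2 * r) ^ j / (j.factorial : ℝ)))
    rwa [mul_zero] at this

end Pool.Agent.Y253.SM
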