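import Pool.Agent.Y253.SM.Defs
import Pool.Agent.H522R3.Spl.Cone
import Pool.Agent.H522R3.Spl.Ind

/-! Exact attainability by words with coefficients in a sector, by induction on the order
(adapted from `H522R3.Spl.Cone` and `H522R3.Spl.Ind`). -/

open Finset PowerSeries Filter Topology
open scoped TensorProduct
open H522R3.Spl (A X M L R exg Grl W Wi sz sc Rel Maj E dil E_Grl E_mul W_Grl W_append sz_append sz_sc
  sz_nonneg dil_W dil_E exists_root coe_rsmul mem_M_iff coeff_one_W1 dil_dil E_zero X_mem fin_L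
  L_succ_mem coeff_exg_one coeff_exg_zero norm_lin Wi_W W_Wi Grl.diff)

noncomputable section

namespace Pool.Agent.Y253.SM

/-- a positive number multiplies a sector into itself -/
theorem Sec.mul {κ : ℝ} {z : ℂ} (h : Sec κ z) {c : ℝ} (hc : 0 < c) : Sec κ ((c : ℂ) * z) := by
  unfold Sec at *
  have h1 : ((c : ℂ) * z).im = c * z.im := by simp
  have h2 : ((c : ℂ) * z).re = c * z.re := by simp
  rw [h1, h2, abs_mul, abs_of_pos hc]
  calc c * |z.im| < c * (κ * z.re) := mul_lt_mul_of_pos_left h hc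
    _ = κ * (c * z.re) := by ring

theorem PosK.append {κ : ℝ} {l l' : List (ℂ × ℂ)} (h : PosK κ l) (h' : PosK κ l') :
    PosK κ (l ++ l') := by
  intro p hp
  rcases List.mem_append.1 hp with h1 | h1
  · exact h p h1
  · exact h' p h1

theorem PosK.sc {κ c : ℝ} (hc : 0 < c) : ∀ {l : List (ℂ × ℂ)}, PosK κ l →
    PosK κ (H522R3.Spl.sc c l)
  | [], _ => by intro p hp; simp [H522R3.Spl.sc] at hp
  | q :: l, h => by
    intro p hp
    rw [H522R3.Spl.sc] at hp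
    rcases List.mem_cons.1 hp with rfl | h1
    · have := h q (by simp)
      exact ⟨this.1.mul hc, this.2.mul hc⟩
    · exact PosK.sc hc (fun p hp => h p (by simp [hp])) p h1

/-- the functional of the cone argument vanishes -/
def S_KEY : Prop := ∀ (κ : ℝ) (n : ℕ) (R0 δ0 : ℝ), 0 < κ → 0 < δ0 → PP κ (n + 1) R0 δ0 →
  ∀ ℓ : A →+ ℝ, (∀ (t : ℝ) (x : A), ℓ ((t : ℂ) • x) = t * ℓ x) →
  ∀ C : ℝ, 0 ≤ C → (∀ x ∈ L (n + 1), |ℓ x| ≤ C * ‖x‖) →
    (∀ (e : ℝ) (w : A) (l : List (ℂ × ℂ)), 0 < e → w ∈ L (n + 1) → PosK κ l →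
      Rel (n + 1 + 1) (W l) (E (e : ℂ)) w → 0 ≤ ℓ w) → ∀ z ∈ L (n + 1), ℓ z = 0

def Ach (κ : ℝ) (N : ℕ) (c : ℝ) (v : A) (r : ℝ) : Prop :=
  ∃ l, PosK κ l ∧ sz l ≤ r ∧ Rel (N + 1) (W l) (E c) v

theorem Ach.add {κ : ℝ} {N : ℕ} {c c' : ℝ} {v v' : A} {r r' : ℝ} (h : Ach κ N c v r) (h' : Ach κ N c' v' r') :
    Ach κ N (c + c') (v + v') (r + r') := by
  obtain ⟨l, h1, h2, h3⟩ := h
  obtain ⟨l', h1', h2', h3'⟩ := h'
  refine ⟨l ++ l', h1.append h1', by rw [sz_append]; linarith, ?_⟩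
  rw [W_append, Complex.ofReal_add, ← E_mul]
  exact h3.mul h3' (W_Grl l').one (E_Grl _).one

theorem Ach.scale {κ : ℝ} {N : ℕ} {c : ℝ} {v : A} {r : ℝ} (h : Ach κ N c v r) {m : ℝ} (hm : 0 < m) :
    Ach κ N (m * c) (((m ^ (N + 1) : ℝ) : ℂ) • v) (m * r) := by
  obtain ⟨l, h1, h2, h3⟩ := h
  refine ⟨sc m l, h1.sc hm, ?_, ?_⟩
  · rw [sz_sc, Complex.norm_real, Real.norm_of_nonneg hm.le]
    exact mul_le_mul_of_nonneg_left h2 hm.le
  · have := h3.dil (W_Grl l) (E_Grl _) (m : ℂ)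
    rw [dil_W, dil_E] at this
    push_cast
    exact this

theorem Ach.nonneg {κ : ℝ} {N : ℕ} {c : ℝ} {v : A} {r : ℝ} (h : Ach κ N c v r) : 0 ≤ r := by
  obtain ⟨l, _, h2, _⟩ := h
  exact (sz_nonneg l).trans h2

theorem Ach.mono {κ : ℝ} {N : ℕ} {c : ℝ} {v : A} {r r' : ℝ} (h : Ach κ N c v r) (hr : r ≤ r') :
    Ach κ N c v r' := by
  obtain ⟨l, h1, h2, h3⟩ := h
  exact ⟨l, h1, h2.trans hr, h3⟩

section
variable {κ : ℝ} {n : ℕ} {R0 δ0 : ℝ}

/-- cone of attained defects -/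
def Kc (κ : ℝ) (N : ℕ) : Set (L N) := {v | ∃ e : ℝ, 0 < e ∧ ∃ r, Ach κ N e (v : A) r}

theorem Kc_add {N : ℕ} {v w : L N} (hv : v ∈ Kc κ N) (hw : w ∈ Kc κ N) : v + w ∈ Kc κ N := by
  obtain ⟨e, he, r, h⟩ := hv
  obtain ⟨e', he', r', h'⟩ := hw
  exact ⟨e + e', add_pos he he', r + r', h.add h'⟩

theorem Kc_smul {N : ℕ} {v : L N} (hv : v ∈ Kc κ N) {m : ℝ} (hm : 0 < m) : m • v ∈ Kc κ N := by
  obtain ⟨e, he, r, h⟩ := hv
  obtain ⟨s, hs, hs'⟩ := exists_root N hm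
  refine ⟨s * e, mul_pos hs he, s * r, ?_⟩
  have := h.scale hs
  rwa [hs'] at this

theorem Kc_convex (κ : ℝ) (N : ℕ) : Convex ℝ (Kc κ N) := by
  intro v hv w hw a b ha hb hab
  rcases ha.eq_or_lt with rfl | ha
  · have : b = 1 := by linarith
    subst this; simpa using hw
  rcases hb.eq_or_lt with rfl | hb
  · have : a = 1 := by linarith
    subst this; simpa using hv
  exact Kc_add (Kc_smul hv ha) (Kc_smul hw hb)

theorem Kc_univ (hkey : S_KEY) (hκ : 0 < κ) (hδ : 0 < δ0) (hP : PP κ (n + 1) R0 δ0) : Kc κ (n + 1) = Set.univ := by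
  -- closure is everything
  have hcl : closure (Kc κ (n + 1)) = Set.univ := by
    by_contra hne
    obtain ⟨x, hx⟩ := (Set.ne_univ_iff_exists_notMem _).1 hne
    obtain ⟨f, u, hfx, hfu⟩ := geometric_hahn_banach_point_closed (Kc_convex κ (n + 1)).closure
      isClosed_closure hx
    have hpos : ∀ v ∈ Kc κ (n + 1), 0 ≤ f v := by
      intro v hv
      by_contra hneg
      push Not at hneg
      have h1 : 0 < (|u| + 1) / (-f v) := div_pos (by positivity) (by linarith)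
      have h2 := hfu _ (subset_closure (Kc_smul hv h1))
      rw [map_smul, smul_eq_mul, div_mul_eq_mul_div, div_neg, mul_div_cancel_right₀ _ hneg.ne] at h2
      have := neg_abs_le u
      linarith
    -- extend to a functional on `A`
    obtain ⟨p, hp⟩ : ∃ p : A →ₗ[ℂ] (L (n + 1)), ∀ v : L (n + 1), p v = v := by
      obtain ⟨p, hp⟩ := (L (n + 1)).exists_isCompl
      exact ⟨Submodule.projectionOnto _ _ hp, fun v => Submodule.projectionOnto_apply_left hp v⟩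
    set ℓ : A →+ ℝ := (f : L (n + 1) →+ ℝ).comp (p : A →+ L (n + 1)) with hℓ
    have hℓv : ∀ v : L (n + 1), ℓ (v : A) = f v := fun v => by
      change f (p v) = f v
      rw [hp]
    have hzero : ∀ v : L (n + 1), f v = 0 := by
      intro v
      rw [← hℓv]
      refine hkey κ n R0 δ0 hκ hδ hP ℓ ?_ ‖f‖ f.opNorm_nonneg ?_ ?_ v v.2
      · intro t x
        change f (p ((t : ℂ) • x)) = t * f (p x)
        rw [map_smul]
        have : ((t : ℂ) • p x) = (t : ℝ) • p x := rfl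
        rw [this, map_smul]; rfl
      · intro x hx
        have := f.le_opNorm ⟨x, hx⟩
        rw [← hℓv ⟨x, hx⟩] at this
        exact this
      · intro e w l he hw hl1 hl2
        have := hpos ⟨w, hw⟩ ⟨e, he, sz l, l, hl1, le_rfl, hl2⟩
        rwa [← hℓv ⟨w, hw⟩] at this
    -- contradiction
    have hne' : (Kc κ (n + 1)).Nonempty := by
      obtain ⟨l, h1, h2, h3⟩ := hP (E 1) (E_Grl 1) (by intro j _; simp [hδ])
      refine ⟨⟨coeff (n + 1 + 1) (W l) - coeff (n + 1 + 1) (E 1), (W_Grl l).diff (E_Grl 1) h3⟩,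
        1, one_pos, sz l, l, h1, le_rfl, ?_⟩
      rw [Complex.ofReal_one]
      exact ⟨fun j hj => h3 j (by omega), by simp only; abel⟩
    obtain ⟨k, hk⟩ := hne'
    have h1 := hfu k (subset_closure hk)
    rw [hzero] at hfx h1
    linarith
  -- interior is nonempty
  have hint : (interior (Kc κ (n + 1))).Nonempty := by
    rw [(Kc_convex κ (n + 1)).interior_nonempty_iff_affineSpan_eq_top]
    have h1 : IsClosed ((affineSpan ℝ (Kc κ (n + 1)) : AffineSubspace ℝ (L (n + 1))) : Set (L (n + 1))) :=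
      AffineSubspace.closed_of_finiteDimensional _
    have h2 : closure (Kc κ (n + 1)) ⊆ (affineSpan ℝ (Kc κ (n + 1)) : Set (L (n + 1))) :=
      closure_minimal (subset_affineSpan ℝ _) h1
    rw [hcl] at h2
    rw [eq_top_iff]
    intro x _
    exact h2 (Set.mem_univ x)
  obtain ⟨x0, hx0⟩ := hint
  rw [Set.eq_univ_iff_forall]
  intro v
  have h1 : (2 : ℝ) • v - x0 ∈ closure (Kc κ (n + 1)) := by rw [hcl]; trivial
  have h2 := (Kc_convex κ (n + 1)).openSegment_interior_closure_subset_interior hx0 h1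
  refine interior_subset (h2 ?_)
  refine ⟨1 / 2, 1 / 2, by norm_num, by norm_num, by norm_num, ?_⟩
  rw [← smul_add, add_sub_cancel, smul_smul]
  norm_num

theorem ach_zero (hkey : S_KEY) (hκ : 0 < κ) (hδ : 0 < δ0) (hP : PP κ (n + 1) R0 δ0) : ∃ r, Ach κ (n + 1) 1 0 r := by
  have h : (0 : L (n + 1)) ∈ Kc κ (n + 1) := by rw [Kc_univ hkey hκ hδ hP]; trivial
  obtain ⟨e, he, r, h⟩ := h
  have := h.scale (inv_pos.2 he)
  rw [inv_mul_cancel₀ he.ne'] at this
  exact ⟨_, by simpa using this⟩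

theorem ach_ray (hkey : S_KEY) (hκ : 0 < κ) (hδ : 0 < δ0) (hP : PP κ (n + 1) R0 δ0) (u : L (n + 1)) :
    ∃ r, ∃ t0 : ℝ, 0 < t0 ∧ ∀ t : ℝ, 0 ≤ t → t ≤ t0 → Ach κ (n + 1) 1 ((t : ℂ) • (u : A)) r := by
  obtain ⟨r0, h0⟩ := ach_zero hkey hκ hδ hP
  have h : u ∈ Kc κ (n + 1) := by rw [Kc_univ hkey hκ hδ hP]; trivial
  obtain ⟨e, he, r, h⟩ := h
  refine ⟨(1 / (2 * e)) * r + r0, (1 / (2 * e)) ^ (n + 1 + 1), by positivity, fun t ht0 ht => ?_⟩
  have hr := h.nonneg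
  have hr0 := h0.nonneg
  rcases ht0.eq_or_lt with rfl | htp
  · have : (((0:ℝ) : ℂ) • (u : A)) = 0 := by simp
    rw [this]
    refine h0.mono ?_
    have : 0 ≤ (1 / (2 * e)) * r := by positivity
    linarith
  · obtain ⟨s, hs, hs'⟩ := exists_root (n + 1) htp
    have hse : s ≤ 1 / (2 * e) := by
      rw [← hs'] at ht
      exact le_of_pow_le_pow_left₀ (by omega) (by positivity) ht
    have h1 : s * e ≤ 1 / 2 := by
      calc s * e ≤ 1 / (2 * e) * e := mul_le_mul_of_nonneg_right hse he.le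
        _ = 1 / 2 := by field_simp
    have h2 := (h.scale hs).add (h0.scale (m := 1 - s * e) (by linarith))
    rw [hs', smul_zero, add_zero, mul_one, add_sub_cancel] at h2
    refine h2.mono ?_
    have h3 : s * r ≤ (1 / (2 * e)) * r := mul_le_mul_of_nonneg_right hse hr
    have h4 : (1 - s * e) * r0 ≤ r0 := by
      have : 0 ≤ s * e := by positivity
      nlinarith
    linarith

theorem ach_line (hkey : S_KEY) (hκ : 0 < κ) (hδ : 0 < δ0) (hP : PP κ (n + 1) R0 δ0) (u : L (n + 1)) :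
    ∃ r, ∃ t0 : ℝ, 0 < t0 ∧ ∀ t : ℝ, |t| ≤ t0 → Ach κ (n + 1) 1 ((t : ℂ) • (u : A)) r := by
  obtain ⟨r, t0, ht0, h⟩ := ach_ray hkey hκ hδ hP u
  obtain ⟨r', t0', ht0', h'⟩ := ach_ray hkey hκ hδ hP (-u)
  refine ⟨max r r', min t0 t0', lt_min ht0 ht0', fun t ht => ?_⟩
  rcases le_total 0 t with h1 | h1
  · rw [abs_of_nonneg h1] at ht
    exact (h t h1 (ht.trans (min_le_left _ _))).mono (le_max_left _ _)
  · rw [abs_of_nonpos h1] at ht
    have := h' (-t) (by linarith) (ht.trans (min_le_right _ _))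
    have h2 : (((-t : ℝ) : ℂ) • ((-u : L (n + 1)) : A)) = (t : ℂ) • (u : A) := by
      push_cast; simp
    rw [h2] at this
    exact this.mono (le_max_right _ _)

theorem ach_ball (hkey : S_KEY) (hκ : 0 < κ) (hδ : 0 < δ0) (hP : PP κ (n + 1) R0 δ0) :
    ∃ r : ℝ, 0 < r ∧ ∃ ρ, ∀ v ∈ L (n + 1), ‖v‖ ≤ r → Ach κ (n + 1) 1 v ρ := by
  classical
  let b := Module.finBasis ℝ (L (n + 1))
  obtain ⟨r0, h0⟩ := ach_zero hkey hκ hδ hP
  have hfin : ∀ s : Finset (Fin (Module.finrank ℝ (L (n + 1)))), ∃ ρ, ∃ t : ℝ, 0 < t ∧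
      ∀ x : Fin (Module.finrank ℝ (L (n + 1))) → ℝ, (∀ i, |x i| ≤ t) →
        Ach κ (n + 1) 1 ((∑ i ∈ s, x i • b i : L (n + 1)) : A) ρ := by
    intro s
    induction s using Finset.induction_on with
    | empty => exact ⟨r0, 1, one_pos, fun x _ => by simpa using h0⟩
    | insert i s his ih =>
      obtain ⟨ρ, t, ht, h⟩ := ih
      obtain ⟨ρ', t', ht', h'⟩ := ach_line hkey hκ hδ hP (b i)
      refine ⟨1 / 2 * ρ' + 1 / 2 * ρ, min t t' / 2 ^ (n + 1 + 1), by positivity, fun x hx => ?_⟩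
      have h2 : (0:ℝ) < 2 ^ (n + 1 + 1) := by positivity
      have hx2 : ∀ j, |2 ^ (n + 1 + 1) * x j| ≤ min t t' := by
        intro j
        rw [abs_mul, abs_of_pos h2]
        have := hx j
        rw [le_div_iff₀ h2] at this
        linarith
      have e1 := (h' (2 ^ (n + 1 + 1) * x i) ((hx2 i).trans (min_le_right _ _))).scale
        (m := 1 / 2) (by norm_num)
      have e2 := (h (fun j => 2 ^ (n + 1 + 1) * x j) (fun j => (hx2 j).trans (min_le_left _ _))).scale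
        (m := 1 / 2) (by norm_num)
      have e3 := e1.add e2
      have e4 : (((1 / 2 : ℝ) ^ (n + 1 + 1) : ℝ) : ℂ) • (((2 ^ (n + 1 + 1) * x i : ℝ) : ℂ) • ((b i : L (n + 1)) : A))
          = (x i : ℂ) • ((b i : L (n + 1)) : A) := by
        rw [smul_smul]
        congr 1
        push_cast
        rw [← mul_assoc, ← mul_pow]
        norm_num
      have e5 : (((1 / 2 : ℝ) ^ (n + 1 + 1) : ℝ) : ℂ) •
          ((∑ j ∈ s, (2 ^ (n + 1 + 1) * x j) • b j : L (n + 1)) : A) =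
          ((∑ j ∈ s, x j • b j : L (n + 1)) : A) := by
        rw [← coe_rsmul, Finset.smul_sum]
        congr 2
        funext j
        rw [smul_smul, ← mul_assoc, ← mul_pow]
        norm_num
      rw [e4, e5] at e3
      have e6 : ((∑ j ∈ insert i s, x j • b j : L (n + 1)) : A) =
          (x i : ℂ) • ((b i : L (n + 1)) : A) + ((∑ j ∈ s, x j • b j : L (n + 1)) : A) := by
        rw [Finset.sum_insert his, Submodule.coe_add, coe_rsmul]
      rw [e6]
      have e7 : (1 / 2 : ℝ) * 1 + 1 / 2 * 1 = 1 := by norm_num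
      rwa [e7] at e3
  obtain ⟨ρ, t, ht, h⟩ := hfin Finset.univ
  obtain ⟨C, hC0, hC⟩ := (b.equivFunL.toContinuousLinearMap).bound
  refine ⟨t / C, by positivity, ρ, fun v hv hvr => ?_⟩
  have h1 := h (b.equivFun ⟨v, hv⟩) (fun i => by
    have h2 : ‖b.equivFunL ⟨v, hv⟩ i‖ ≤ ‖b.equivFunL ⟨v, hv⟩‖ := norm_le_pi_norm _ i
    have h3 : ‖b.equivFunL ⟨v, hv⟩‖ ≤ C * ‖v‖ := hC ⟨v, hv⟩
    rw [← Real.norm_eq_abs]
    refine h2.trans (h3.trans ?_)
    rw [le_div_iff₀ hC0] at hvr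
    linarith)
  have h6 : (∑ i, (b.equivFun ⟨v, hv⟩) i • b i : L (n + 1)) = ⟨v, hv⟩ := b.sum_equivFun ⟨v, hv⟩
  rw [h6] at h1
  exact h1

end

theorem step (hkey : S_KEY) {κ : ℝ} (hκ : 0 < κ) {n : ℕ} {R0 δ0 : ℝ} (hδ : 0 < δ0)
    (hP : PP κ (n + 1) R0 δ0) : ∃ R1 δ1 : ℝ, 0 < δ1 ∧ PP κ (n + 1 + 1) R1 δ1 := by
  obtain ⟨r, hr, ρ, hball⟩ := ach_ball hkey hκ hδ hP
  have hR0 : 0 ≤ R0 := by
    obtain ⟨l, _, h2, _⟩ := hP (E 1) (E_Grl 1) (by intro j _; simp [hδ])
    exact (sz_nonneg l).trans h2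
  have hρ : 0 ≤ ρ := (hball 0 (Submodule.zero_mem _) (by simpa using hr.le)).nonneg
  set M0 : ℝ := R0 ^ (n + 1 + 1) / (n + 1 + 1).factorial + ‖coeff (n + 1 + 1) (E 1)‖ + 1 with hM0
  have hM0pos : 1 ≤ M0 := by
    have : 0 ≤ R0 ^ (n + 1 + 1) / (n + 1 + 1).factorial := by positivity
    have := norm_nonneg (coeff (n + 1 + 1) (E 1))
    linarith
  obtain ⟨η, hη0, hη1, hη2⟩ : ∃ η : ℝ, 0 < η ∧ η ≤ 1 / 2 ∧ (2 * η) ^ (n + 1 + 1) * M0 ≤ r := by
    refine ⟨min (1 / 2) (r / (2 * M0)), lt_min (by norm_num) (by positivity), min_le_left _ _, ?_⟩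
    set η := min (1 / 2) (r / (2 * M0))
    have h1 : 0 ≤ 2 * η := by positivity
    have h2 : 2 * η ≤ 1 := by linarith [min_le_left (1 / 2) (r / (2 * M0))]
    have h3 : (2 * η) ^ (n + 1 + 1) ≤ 2 * η := pow_le_of_le_one h1 h2 (by omega)
    have h4 : η ≤ r / (2 * M0) := min_le_right _ _
    rw [le_div_iff₀ (by positivity)] at h4
    calc (2 * η) ^ (n + 1 + 1) * M0 ≤ 2 * η * M0 := mul_le_mul_of_nonneg_right h3 (by linarith)
      _ ≤ r := by linarith
  set Em : R := E (-(1 - η : ℝ)) with hEm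
  set C' : ℝ := ∑ j ∈ Finset.range (n + 1 + 1 + 1), ∑ p ∈ antidiagonal j, ‖coeff p.2 Em‖ + 1 with hC'
  have hC'pos : 1 ≤ C' := by
    have : 0 ≤ ∑ j ∈ Finset.range (n + 1 + 1 + 1), ∑ p ∈ antidiagonal j, ‖coeff p.2 Em‖ := by
      positivity
    linarith
  set δ1 : ℝ := η ^ (n + 1 + 1) * min δ0 1 / (2 * C') with hδ1
  have hδ1pos : 0 < δ1 := by positivity
  refine ⟨R0 + ρ, δ1, hδ1pos, ?_⟩
  intro g hg hclose
  have hηC : ((η : ℂ)) ≠ 0 := by exact_mod_cast hη0.ne'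
  set k0 : R := g * Em with hk0
  have hk0G : Grl k0 := hg.mul (E_Grl _)
  set k : R := PowerSeries.map (dil (η : ℂ)⁻¹ : A →+* A) k0 with hk
  have hkG : Grl k := hk0G.dil _
  have hE1 : PowerSeries.map (dil (η : ℂ)⁻¹ : A →+* A) (E 1 * Em) = E 1 := by
    rw [hEm, E_mul, dil_E]
    congr 1
    push_cast
    rw [← mul_inv_cancel₀ hηC]
    field_simp
    ring
  have hkc : ∀ j ≤ n + 1 + 1, ‖coeff j k - coeff j (E 1)‖ < min δ0 1 := by
    intro j hj
    rw [← hE1, hk, hk0G.coeff_dil, ((E_Grl 1).mul (E_Grl _)).coeff_dil, ← smul_sub, norm_smul,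
      norm_pow, norm_inv, Complex.norm_real, Real.norm_of_nonneg hη0.le, hk0, ← map_sub, ← sub_mul,
      coeff_mul]
    have h1 : ‖∑ p ∈ antidiagonal j, coeff p.1 (g - E 1) * coeff p.2 Em‖ ≤ δ1 * C' := by
      refine (norm_sum_le _ _).trans ?_
      have h2 : ∑ p ∈ antidiagonal j, ‖coeff p.1 (g - E 1) * coeff p.2 Em‖ ≤
          ∑ p ∈ antidiagonal j, δ1 * ‖coeff p.2 Em‖ := by
        refine sum_le_sum fun p hp => ?_
        rw [HasAntidiagonal.mem_antidiagonal] at hp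
        refine (norm_mul_le _ _).trans (mul_le_mul_of_nonneg_right ?_ (norm_nonneg _))
        rw [map_sub]
        exact (hclose p.1 (by omega)).le
      refine h2.trans ?_
      rw [← mul_sum]
      refine mul_le_mul_of_nonneg_left ?_ hδ1pos.le
      have h3 : ∑ p ∈ antidiagonal j, ‖coeff p.2 Em‖ ≤
          ∑ j ∈ Finset.range (n + 1 + 1 + 1), ∑ p ∈ antidiagonal j, ‖coeff p.2 Em‖ :=
        Finset.single_le_sum (f := fun j => ∑ p ∈ antidiagonal j, ‖coeff p.2 Em‖)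
          (fun _ _ => Finset.sum_nonneg fun _ _ => norm_nonneg _)
          (Finset.mem_range.2 (by omega))
      linarith
    have h4 : (η⁻¹) ^ j ≤ (η⁻¹) ^ (n + 1 + 1) :=
      pow_le_pow_right₀ ((one_le_inv₀ hη0).2 (by linarith)) hj
    have h5 : δ1 * C' = η ^ (n + 1 + 1) * (min δ0 1 / 2) := by
      rw [hδ1]; field_simp
    have hmin : 0 < min δ0 1 := by positivity
    calc (η⁻¹) ^ j * ‖∑ p ∈ antidiagonal j, coeff p.1 (g - E 1) * coeff p.2 Em‖
        ≤ (η⁻¹) ^ (n + 1 + 1) * (δ1 * C') := mul_le_mul h4 h1 (norm_nonneg _) (by positivity)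
      _ = min δ0 1 / 2 := by
        rw [h5, ← mul_assoc, ← mul_pow, inv_mul_cancel₀ hη0.ne', one_pow, one_mul]
      _ < min δ0 1 := by linarith
  obtain ⟨l, hl1, hl2, hl3⟩ := hP k hkG (fun j hj => (hkc j (by omega)).trans_le (min_le_left _ _))
  set c : A := coeff (n + 1 + 1) (W l) - coeff (n + 1 + 1) k with hc
  have hcL : c ∈ L (n + 1) := (W_Grl l).diff hkG hl3
  have hcn : ‖c‖ ≤ M0 := by
    refine (norm_sub_le _ _).trans ?_
    have h7 := Maj.W l (n + 1 + 1)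
    have h8 : sz l ^ (n + 1 + 1) / (n + 1 + 1).factorial ≤
        R0 ^ (n + 1 + 1) / (n + 1 + 1).factorial := by
      have := sz_nonneg l
      gcongr
    have h9 := (hkc (n + 1 + 1) le_rfl).trans_le (min_le_right _ _)
    have h10 : ‖coeff (n + 1 + 1) k‖ ≤ ‖coeff (n + 1 + 1) k - coeff (n + 1 + 1) (E 1)‖ +
        ‖coeff (n + 1 + 1) (E 1)‖ := by
      have := norm_add_le (coeff (n + 1 + 1) k - coeff (n + 1 + 1) (E 1)) (coeff (n + 1 + 1) (E 1))
      rwa [sub_add_cancel] at this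
    linarith
  have hrel : Rel (n + 1 + 1) (W l) k c := ⟨fun j hj => hl3 j (by omega), by rw [hc]; abel⟩
  have hrel2 := hrel.dil (W_Grl l) hkG (η : ℂ)
  rw [dil_W, hk, dil_dil hk0G hηC] at hrel2
  have hrel3 := hrel2.right (b := E ((1 - η : ℝ) : ℂ)) (E_Grl _).one
  have hgE : k0 * E ((1 - η : ℝ) : ℂ) = g := by
    rw [hk0, mul_assoc, hEm, E_mul]
    have : -((1 - η : ℝ) : ℂ) + ((1 - η : ℝ) : ℂ) = 0 := by ring
    rw [this, E_zero, mul_one]
  rw [hgE] at hrel3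
  -- the correction
  have h1η : 0 < 1 - η := by linarith
  have hratio : η / (1 - η) ≤ 2 * η := by
    rw [div_le_iff₀ h1η]; nlinarith
  set v : A := -((((η / (1 - η)) ^ (n + 1 + 1) : ℝ) : ℂ) • c) with hv
  have hvL : v ∈ L (n + 1) := Submodule.neg_mem _ (Submodule.smul_mem _ _ hcL)
  have hvn : ‖v‖ ≤ r := by
    rw [hv, norm_neg, norm_smul, Complex.norm_real, Real.norm_of_nonneg (by positivity)]
    calc (η / (1 - η)) ^ (n + 1 + 1) * ‖c‖ ≤ (2 * η) ^ (n + 1 + 1) * M0 :=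
          mul_le_mul (pow_le_pow_left₀ (by positivity) hratio _) hcn (norm_nonneg _) (by positivity)
      _ ≤ r := hη2
  obtain ⟨l', h1', h2', h3'⟩ := (hball v hvL hvn).scale h1η
  rw [mul_one] at h3'
  have hv2 : ((((1 - η) ^ (n + 1 + 1) : ℝ)) : ℂ) • v = -(((η : ℂ)) ^ (n + 1 + 1) • c) := by
    rw [hv, smul_neg, smul_smul, ← Complex.ofReal_mul, ← mul_pow, mul_div_cancel₀ _ h1η.ne']
    push_cast
    rfl
  rw [hv2] at h3'
  have h4 := h3'.left (a := W (sc (η : ℂ) l)) (W_Grl _).one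
  have h5 := h4.trans hrel3
  rw [neg_add_cancel] at h5
  refine ⟨sc (η : ℂ) l ++ l', (hl1.sc hη0).append h1', ?_, ?_⟩
  · rw [sz_append, sz_sc, Complex.norm_real, Real.norm_of_nonneg hη0.le]
    have e1 : η * sz l ≤ R0 := by
      have := sz_nonneg l
      nlinarith
    have e2 : (1 - η) * ρ ≤ ρ := by nlinarith
    linarith
  · intro j hj
    rw [W_append]
    rcases Nat.lt_or_ge j (n + 1 + 1) with h | h
    · exact h5.1 j h
    · have : j = n + 1 + 1 := by omega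
      rw [this, h5.2, add_zero]


theorem base (κ : ℝ) (hκ : 0 < κ) : PP κ 1 4 (min (1 / 2) (κ / 4)) := by
  intro g hg hc
  have h1 := hg.hom 1
  rw [pow_one] at h1
  obtain ⟨a, b, hab⟩ := mem_M_iff h1
  have h2 := hc 1 le_rfl
  rw [E, coeff_exg_one, hab, one_smul] at h2
  have h3 : a • X false + b • X true - (X false + X true) =
      (a - 1) • X false + (b - 1) • X true := by
    rw [sub_smul, sub_smul, one_smul, one_smul]; abel
  rw [h3, norm_lin] at h2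
  have ha : ‖a - 1‖ < min (1 / 2) (κ / 4) := by linarith [norm_nonneg (b - 1)]
  have hb : ‖b - 1‖ < min (1 / 2) (κ / 4) := by linarith [norm_nonneg (a - 1)]
  have key : ∀ c : ℂ, ‖c - 1‖ < min (1 / 2) (κ / 4) → Sec κ c ∧ ‖c‖ ≤ 2 := by
    intro c hc
    have hc1 := hc.trans_le (min_le_left _ _)
    have hc2 := hc.trans_le (min_le_right _ _)
    constructor
    · have e1 := (Complex.abs_re_le_norm (c - 1)).trans_lt hc1
      rw [abs_lt, Complex.sub_re, Complex.one_re] at e1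
      have e2 := (Complex.abs_im_le_norm (c - 1)).trans_lt hc2
      rw [Complex.sub_im, Complex.one_im, sub_zero] at e2
      unfold Sec
      have e3 : 1 / 2 < c.re := by linarith [e1.1]
      nlinarith
    · have : ‖c‖ ≤ ‖c - 1‖ + ‖(1 : ℂ)‖ := by
        have := norm_add_le (c - 1) 1
        rwa [sub_add_cancel] at this
      rw [norm_one] at this
      linarith
  refine ⟨[(a, b)], ?_, ?_, ?_⟩
  · intro p hp
    simp only [List.mem_cons, List.not_mem_nil, or_false] at hp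
    subst hp
    exact ⟨(key a ha).1, (key b hb).1⟩
  · simp only [sz]
    linarith [(key a ha).2, (key b hb).2]
  · intro j hj
    interval_cases j
    · rw [(W_Grl _).one, hg.one]
    · rw [coeff_one_W1, hab]

theorem all (hkey : S_KEY) (κ : ℝ) (hκ : 0 < κ) (n : ℕ) :
    ∃ R0 δ0 : ℝ, 0 < δ0 ∧ PP κ (n + 1) R0 δ0 := by
  induction n with
  | zero => exact ⟨4, _, lt_min (by norm_num) (by positivity), base κ hκ⟩
  | succ n ih =>
    obtain ⟨R0, δ0, hδ, hP⟩ := ih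
    exact step hkey hκ hδ hP

/-- Existence of words with coefficients in the sector that agree with `exp (T (X + Y))` to any
prescribed order. -/
theorem exists_word (hkey : S_KEY) (κ : ℝ) (hκ : 0 < κ) (N : ℕ) : ∃ l : List (ℂ × ℂ), l ≠ [] ∧
    PosK κ l ∧ ∀ j ≤ N, coeff j (W l) = coeff j (E 1) := by
  obtain ⟨R0, δ0, hδ, hP⟩ := all hkey κ hκ N
  obtain ⟨l, h1, _, h3⟩ := hP (E 1) (E_Grl 1) (by intro j _; simp [hδ])
  refine ⟨l, ?_, h1, fun j hj => h3 j (by omega)⟩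
  rintro rfl
  have h4 := h3 1 (by omega)
  rw [E, coeff_exg_one, one_smul] at h4
  have h5 : (0 : A) = X false + X true := by
    rw [← h4]; simp [W, coeff_one]
  have h6 := norm_lin 1 1
  rw [one_smul, one_smul, ← h5] at h6
  norm_num at h6

end Pool.Agent.Y253.SM
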