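import Pool.Agent.H522R3.Spl.Ctl

/-!
# Splitting methods with coefficients in a narrow sector: definitions and statements

`A = ℂ⟨X, Y⟩` (normed free algebra), `R = A[[T]]`; `exg x = exp (T x)`, `E c = exp (c T (X + Y))`,
`W l` the word of a list of coefficients (library `H522R3.Spl`).
-/

open Finset PowerSeries Filter Topology
open H522R3.Spl

noncomputable section

namespace Pool.Agent.Y253.SM

/-- the open sector `|Im z| < κ Re z` -/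
def Sec (κ : ℝ) (z : ℂ) : Prop := |z.im| < κ * z.re

/-- all coefficients of the word lie in the sector -/
def PosK (κ : ℝ) (l : List (ℂ × ℂ)) : Prop := ∀ p ∈ l, Sec κ p.1 ∧ Sec κ p.2

/-- coefficientwise limits of words of bounded length with coefficients in the sector -/
def Cl (κ : ℝ) (g : R) : Prop :=
  ∃ (r : ℝ) (l : ℕ → List (ℂ × ℂ)), (∀ m, PosK κ (l m)) ∧ (∀ m, sz (l m) ≤ r) ∧
    ∀ j, Tendsto (fun m => coeff j (W (l m))) atTop (𝓝 (coeff j g))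

/-! ### Families polynomial in a parameter `ε` (`= Polynomial.X`) -/

/-- `A[ε]` -/
abbrev Ae : Type := Polynomial A

/-- `A[ε][[T]]` -/
abbrev RR : Type := PowerSeries Ae

/-- constants `A → A[ε]` -/
def cst : A →ₐ[ℂ] Ae := Polynomial.CAlgHom

/-- evaluation at `ε = z` -/
def ev (z : ℂ) : Ae →ₐ[ℂ] A :=
  Polynomial.eval₂AlgHom (AlgHom.id ℂ A) (algebraMap ℂ A z)
    (fun a => (Algebra.commutes z a).symm)

/-- substitution `ε ↦ c ε` -/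
def sb (c : ℂ) : Ae →ₐ[ℂ] Ae :=
  Polynomial.eval₂AlgHom cst (algebraMap ℂ Ae c * Polynomial.X)
    (fun a => Commute.mul_right (Algebra.commutes c (cst a)).symm (Polynomial.commute_X (cst a)).symm)

/-- evaluation of families -/
def evR (z : ℂ) (f : RR) : R := PowerSeries.map (ev z : Ae →+* A) f

/-- substitution in families -/
def sbR (c : ℂ) (f : RR) : RR := PowerSeries.map (sb c : Ae →+* Ae) f

/-- the constant family `E c` -/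
def EE (c : ℂ) : RR := exg (cst (c • (X false + X true)))

/-- exponent of a letter: `c (X + Y) + ε (a X + b Y)` -/
def ltx (c : ℝ) (a b : ℂ) : Ae :=
  cst ((c : ℂ) • (X false + X true)) + Polynomial.X * cst (a • X false + b • X true)

/-- a letter -/
def lt (c : ℝ) (a b : ℂ) : RR := exg (ltx c a b)

/-- the inverse of a letter -/
def lti (c : ℝ) (a b : ℂ) : RR := exg (-(ltx c a b))

/-- `Fam t g gi`: `g` is a product of letters of total time `t` and `gi` is its inverse. -/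
inductive Fam : ℝ → RR → RR → Prop
  | one : Fam 0 1 1
  | cons {t : ℝ} {g gi : RR} (c : ℝ) (a b : ℂ) (hc : 0 < c) (h : Fam t g gi) :
      Fam (c + t) (lt c a b * g) (gi * lti c a b)

/-- `Gam s t h hi`: in the frame moving with `E`, `h` (with inverse `hi`) is attained during the
time interval `[s, t]`. -/
def Gam (s t : ℝ) (h hi : RR) : Prop :=
  Fam (t - s) (EE ((-s : ℝ) : ℂ) * h * EE (t : ℂ)) (EE ((-t : ℝ) : ℂ) * hi * EE (s : ℂ))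

/-- below `T^q`, `f` is divisible by `ε^k` -/
def OO (q k : ℕ) (f : RR) : Prop := ∀ j < q, ∀ i < k, (coeff j f).coeff i = 0

/-- the coefficient of `ε^k` -/
def lc (k : ℕ) (f : RR) : R := PowerSeries.mk fun j => (coeff j f).coeff k

/-- iterated brackets of `X` and `Y` of degree `j + 1` -/
inductive Mon : ℕ → A → Prop
  | base (b : Bool) : Mon 0 (X b)
  | brk {j : ℕ} {e : A} (b : Bool) (h : Mon j e) : Mon (j + 1) (e * X b - X b * e)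

/-- every group-like series close to `exp (T (X + Y))` agrees up to degree `N` with a word with
coefficients in the sector and of length at most `R0` -/
def PP (κ : ℝ) (N : ℕ) (R0 δ0 : ℝ) : Prop :=
  ∀ g : R, Grl g → (∀ j ≤ N, ‖coeff j g - coeff j (E 1)‖ < δ0) →
    ∃ l, PosK κ l ∧ sz l ≤ R0 ∧ ∀ j ≤ N, coeff j (W l) = coeff j g

/-! ### Statements of the pieces -/

/-- SM-TRO (Trotter): `exp (T (a X + b Y))` is a limit of words -/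
def S_TRO : Prop := ∀ (κ : ℝ) (a b : ℂ), 0 < κ → Sec κ a → Sec κ b →
  Cl κ (exg (a • X false + b • X true))

/-- SM-CLM: limits of words are closed under products -/
def S_CLM : Prop := ∀ (κ : ℝ) (g g' : R), Cl κ g → Cl κ g' → Cl κ (g * g')

/-- SM-CLI: convergence of the inverses -/
def S_CLI : Prop := ∀ (κ : ℝ) (g gi : R), Cl κ g → g * gi = 1 →
  ∃ l : ℕ → List (ℂ × ℂ), (∀ m, PosK κ (l m)) ∧
    (∀ j, Tendsto (fun m => coeff j (W (l m))) atTop (𝓝 (coeff j g))) ∧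
    (∀ j, Tendsto (fun m => coeff j (Wi (l m))) atTop (𝓝 (coeff j gi)))

/-- SM-EVC: the values of a family at small `ε > 0` are group-like limits of words -/
def S_EVC : Prop := ∀ (κ : ℝ) (t : ℝ) (g gi : RR), 0 < κ → Fam t g gi →
  ∀ᶠ ε : ℝ in 𝓝[>] 0, Cl κ (evR (ε : ℂ) g) ∧ Grl (evR (ε : ℂ) g) ∧ Grl (evR (ε : ℂ) gi) ∧
    evR (ε : ℂ) g * evR (ε : ℂ) gi = 1 ∧ evR (ε : ℂ) gi * evR (ε : ℂ) g = 1

/-- SM-EVB: size of the values of a family divisible by `ε^k` -/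
def S_EVB : Prop := ∀ (q k : ℕ) (f : RR), OO q k f → ∃ C : ℝ, 0 ≤ C ∧
  ∀ ε : ℝ, 0 < ε → ε ≤ 1 → ∀ j < q,
    ‖coeff j (evR (ε : ℂ) f) - (ε : ℂ) ^ k • coeff j (lc k f)‖ ≤ C * ε ^ (k + 1)

/-! calculus of `OO` and `lc` -/

def S_omul : Prop := ∀ (q k l : ℕ) (f g : RR), OO q k f → OO q l g → OO q (k + l) (f * g) ∧
  ∀ j < q, coeff j (lc (k + l) (f * g)) = coeff j (lc k f * lc l g)

def S_oone : Prop := ∀ (q k : ℕ) (u v : RR), 1 ≤ k → OO q k (u - 1) → OO q k (v - 1) →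
  OO q k (u * v - 1) ∧
    ∀ j < q, coeff j (lc k (u * v - 1)) = coeff j (lc k (u - 1)) + coeff j (lc k (v - 1))

def S_oinv : Prop := ∀ (q k : ℕ) (h hi : RR), 1 ≤ k → h * hi = 1 → OO q k (h - 1) →
  OO q k (hi - 1) ∧ ∀ j < q, coeff j (lc k (hi - 1)) = - coeff j (lc k (h - 1))

def S_oconj : Prop := ∀ (q k : ℕ) (s : ℝ) (f : RR), OO q k f →
  OO q k (EE (s : ℂ) * f * EE ((-s : ℝ) : ℂ)) ∧
    ∀ j < q, coeff j (lc k (EE (s : ℂ) * f * EE ((-s : ℝ) : ℂ))) =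
      coeff j (E (s : ℂ) * lc k f * E ((-s : ℝ) : ℂ))

def S_osb : Prop := ∀ (q k : ℕ) (c : ℂ) (f : RR), OO q k f → OO q k (sbR c f) ∧
  ∀ j, coeff j (lc k (sbR c f)) = c ^ k • coeff j (lc k f)

/-! calculus of `Gam` -/

def S_gmul : Prop := ∀ (s t r : ℝ) (h hi h' hi' : RR), Gam s t h hi → Gam t r h' hi' →
  Gam s r (h * h') (hi' * hi)

def S_grest : Prop := ∀ (s t : ℝ), s ≤ t → Gam s t 1 1

def S_gshift : Prop := ∀ (s t τ : ℝ) (h hi : RR), Gam s t h hi →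
  Gam (s + τ) (t + τ) (EE (τ : ℂ) * h * EE ((-τ : ℝ) : ℂ)) (EE (τ : ℂ) * hi * EE ((-τ : ℝ) : ℂ))

def S_gsb : Prop := ∀ (s t : ℝ) (c : ℂ) (h hi : RR), Gam s t h hi →
  Gam s t (sbR c h) (sbR c hi)

def S_ginv : Prop := ∀ (s t : ℝ) (h hi : RR), Gam s t h hi → h * hi = 1 ∧ hi * h = 1

def S_gbase : Prop := ∀ (a b : ℂ),
  Gam 0 1 (lt 1 a b * EE ((-1 : ℝ) : ℂ)) (EE ((1 : ℝ) : ℂ) * lti 1 a b)

/-- SM-INV: inverses are attained later -/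
def S_INV : Prop := ∀ (q m k : ℕ) (c t : ℝ) (h hi : RR), 1 ≤ k → 0 ≤ c → c ≤ t →
  Gam 0 c h hi → OO q k (h - 1) →
    ∃ (r : ℝ) (h' hi' : RR), t ≤ r ∧ Gam t r h' hi' ∧ OO q m (h * h' - 1)

/-- SM-COM: commutators -/
def S_COM : Prop := ∀ (q k₁ k₂ : ℕ) (c₁ c₂ : ℝ) (h₁ i₁ h₂ i₂ : RR), 1 ≤ k₁ → 1 ≤ k₂ →
  0 ≤ c₁ → 0 ≤ c₂ → Gam 0 c₁ h₁ i₁ → Gam 0 c₂ h₂ i₂ → OO q k₁ (h₁ - 1) → OO q k₂ (h₂ - 1) →
    ∃ (r : ℝ) (h hi : RR), 0 ≤ r ∧ Gam 0 r h hi ∧ OO q (k₁ + k₂) (h - 1) ∧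
      ∀ j < q, coeff j (lc (k₁ + k₂) (h - 1)) =
        coeff j (lc k₁ (h₁ - 1) * (E (c₁ : ℂ) * lc k₂ (h₂ - 1) * E ((-c₁ : ℝ) : ℂ)) -
          E (c₁ : ℂ) * lc k₂ (h₂ - 1) * E ((-c₁ : ℝ) : ℂ) * lc k₁ (h₁ - 1))

/-- SM-MON: families with a prescribed leading term -/
def S_MON : Prop := ∀ (n : ℕ) (v : A), Mon n v → ∀ (ω : ℂ) (q : ℕ), n + 2 ≤ q →
  ∃ (k : ℕ) (c : ℝ) (h hi : RR), 1 ≤ k ∧ 0 ≤ c ∧ Gam 0 c h hi ∧ OO q k (h - 1) ∧
    (∀ i ≤ n, coeff i (lc k (h - 1)) = 0) ∧ coeff (n + 1) (lc k (h - 1)) = ω • v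

/-- SM-EST: the main estimate -/
def S_EST : Prop := ∀ (κ : ℝ) (n : ℕ) (R0 δ0 : ℝ), 0 < κ → 0 < δ0 → PP κ (n + 1) R0 δ0 →
  ∀ (k : ℕ) (c : ℝ) (h hi : RR) (v : A), 1 ≤ k → 0 ≤ c → Gam 0 c h hi →
    OO (n + 3) k (h - 1) → (∀ i ≤ n + 1, coeff i (lc k (h - 1)) = 0) →
    coeff (n + 1 + 1) (lc k (h - 1)) = v →
  ∃ C τ₀ : ℝ, 0 ≤ C ∧ 0 < τ₀ ∧ ∀ τ : ℝ, 0 < τ → τ < τ₀ →
    ∃ (e : ℝ) (w : A) (l : List (ℂ × ℂ)), 0 < e ∧ w ∈ L (n + 1) ∧ PosK κ l ∧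
      Rel (n + 1 + 1) (W l) (E (e : ℂ)) w ∧
      ‖w - (((τ ^ ((n + 1) * k) : ℝ)) : ℂ) • v‖ ≤ C * τ ^ ((n + 1) * k + 1)

end Pool.Agent.Y253.SM
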