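import Pool.Agent.Y253.SM.Defs

/-! Calculus of families in the moving frame. -/

open Finset PowerSeries
open H522R3.Spl (A X R E exg map_exg exg_zero exg_add exg_neg exg_neg')

noncomputable section

namespace Pool.Agent.Y253.SM

namespace GamAux

theorem EE_zero : EE 0 = 1 := by
  rw [EE, zero_smul, map_zero, exg_zero]

theorem EE_mul (a b : ℂ) : EE a * EE b = EE (a + b) := by
  rw [EE, EE, EE, exg_add, add_smul, map_add]
  have : Commute (a • (X false + X true)) (b • (X false + X true)) :=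
    ((Commute.refl _).smul_left a).smul_right b
  exact this.map cst

theorem EE_rmul (a b : ℝ) : EE (a : ℂ) * EE (b : ℂ) = EE ((a + b : ℝ) : ℂ) := by
  rw [EE_mul, Complex.ofReal_add]

theorem EE_canc (t : ℝ) : EE (t : ℂ) * EE ((-t : ℝ) : ℂ) = 1 := by
  rw [EE_rmul, add_neg_cancel, Complex.ofReal_zero, EE_zero]

theorem EE_canc' (t : ℝ) : EE ((-t : ℝ) : ℂ) * EE (t : ℂ) = 1 := by
  rw [EE_rmul, neg_add_cancel, Complex.ofReal_zero, EE_zero]

theorem ltx_zero (c : ℝ) : ltx c 0 0 = cst ((c : ℂ) • (X false + X true)) := by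
  rw [ltx, zero_smul, zero_smul, add_zero, map_zero, mul_zero, add_zero]

theorem lt_zero (c : ℝ) : lt c 0 0 = EE (c : ℂ) := by rw [lt, ltx_zero, EE]

theorem lti_zero (c : ℝ) : lti c 0 0 = EE ((-c : ℝ) : ℂ) := by
  rw [lti, ltx_zero, EE, ← map_neg, ← neg_smul, Complex.ofReal_neg]

theorem lt_lti (c : ℝ) (a b : ℂ) : lt c a b * lti c a b = 1 := exg_neg _

theorem lti_lt (c : ℝ) (a b : ℂ) : lti c a b * lt c a b = 1 := exg_neg' _

theorem Fam.inv {t : ℝ} {g gi : RR} (h : Fam t g gi) : g * gi = 1 ∧ gi * g = 1 := by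
  induction h with
  | one => simp
  | @cons t g gi c a b hc h ih =>
    constructor
    · calc lt c a b * g * (gi * lti c a b) = lt c a b * (g * gi) * lti c a b := by
            simp only [mul_assoc]
        _ = 1 := by rw [ih.1, mul_one, lt_lti]
    · calc gi * lti c a b * (lt c a b * g) = gi * (lti c a b * lt c a b) * g := by
            simp only [mul_assoc]
        _ = 1 := by rw [lti_lt, mul_one, ih.2]

theorem Fam.mul {s t : ℝ} {g gi g' gi' : RR} (h : Fam s g gi) (h' : Fam t g' gi') :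
    Fam (s + t) (g * g') (gi' * gi) := by
  induction h with
  | one => rw [zero_add, one_mul, mul_one]; exact h'
  | @cons s g gi c a b hc h ih =>
    have := Fam.cons c a b hc ih
    rw [add_assoc, mul_assoc, ← mul_assoc gi']
    exact this

theorem Fam.single {c : ℝ} (hc : 0 < c) (a b : ℂ) : Fam c (lt c a b) (lti c a b) := by
  have := Fam.cons c a b hc Fam.one
  rwa [add_zero, mul_one, one_mul] at this

theorem Fam.rest {t : ℝ} (ht : 0 ≤ t) : Fam t (EE (t : ℂ)) (EE ((-t : ℝ) : ℂ)) := by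
  rcases ht.eq_or_lt with h | h
  · rw [← h, neg_zero, Complex.ofReal_zero, EE_zero]; exact Fam.one
  · have := Fam.single h 0 0
    rwa [lt_zero, lti_zero] at this

theorem sbR_mul (c : ℂ) (f g : RR) : sbR c (f * g) = sbR c f * sbR c g := by
  unfold sbR; rw [map_mul]

theorem sbR_one (c : ℂ) : sbR c 1 = 1 := by
  unfold sbR; rw [map_one]

theorem sb_cst (c : ℂ) (a : A) : sb c (cst a) = cst a := by
  change Polynomial.eval₂ ((cst : A →ₐ[ℂ] Ae) : A →+* Ae)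
    (algebraMap ℂ Ae c * Polynomial.X) (Polynomial.C a) = _
  rw [Polynomial.eval₂_C]
  rfl

theorem sb_X (c : ℂ) : sb c Polynomial.X = algebraMap ℂ Ae c * Polynomial.X := by
  change Polynomial.eval₂ ((cst : A →ₐ[ℂ] Ae) : A →+* Ae)
    (algebraMap ℂ Ae c * Polynomial.X) Polynomial.X = _
  rw [Polynomial.eval₂_X]

theorem sb_ltx (z : ℂ) (c : ℝ) (a b : ℂ) : sb z (ltx c a b) = ltx c (z * a) (z * b) := by
  rw [ltx, ltx, map_add, map_mul, sb_cst, sb_cst, sb_X]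
  congr 1
  rw [← Algebra.smul_def, smul_mul_assoc, ← mul_smul_comm, ← map_smul, smul_add, smul_smul,
    smul_smul]

theorem sbR_lt (z : ℂ) (c : ℝ) (a b : ℂ) : sbR z (lt c a b) = lt c (z * a) (z * b) := by
  unfold sbR lt
  rw [map_exg, sb_ltx]

theorem sbR_lti (z : ℂ) (c : ℝ) (a b : ℂ) : sbR z (lti c a b) = lti c (z * a) (z * b) := by
  unfold sbR lti
  rw [map_exg, map_neg, sb_ltx]

theorem sbR_EE (z c : ℂ) : sbR z (EE c) = EE c := by
  unfold sbR EE
  rw [map_exg, sb_cst]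

theorem Fam.sb {t : ℝ} {g gi : RR} (z : ℂ) (h : Fam t g gi) : Fam t (sbR z g) (sbR z gi) := by
  induction h with
  | one => rw [sbR_one]; exact Fam.one
  | @cons t g gi c a b hc h ih =>
    rw [sbR_mul, sbR_mul, sbR_lt, sbR_lti]
    exact Fam.cons c _ _ hc ih

end GamAux

open GamAux

theorem gmul : S_gmul := by
  intro s t r h hi h' hi' h1 h2
  unfold Gam at *
  have e1 : EE ((-s : ℝ) : ℂ) * (h * h') * EE (r : ℂ) =
      (EE ((-s : ℝ) : ℂ) * h * EE (t : ℂ)) * (EE ((-t : ℝ) : ℂ) * h' * EE (r : ℂ)) := by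
    calc EE ((-s : ℝ) : ℂ) * (h * h') * EE (r : ℂ)
        = EE ((-s : ℝ) : ℂ) * h * (EE (t : ℂ) * EE ((-t : ℝ) : ℂ)) * h' * EE (r : ℂ) := by
          rw [EE_canc, mul_one]; simp only [mul_assoc]
      _ = _ := by simp only [mul_assoc]
  have e2 : EE ((-r : ℝ) : ℂ) * (hi' * hi) * EE (s : ℂ) =
      (EE ((-r : ℝ) : ℂ) * hi' * EE (t : ℂ)) * (EE ((-t : ℝ) : ℂ) * hi * EE (s : ℂ)) := by
    calc EE ((-r : ℝ) : ℂ) * (hi' * hi) * EE (s : ℂ)
        = EE ((-r : ℝ) : ℂ) * hi' * (EE (t : ℂ) * EE ((-t : ℝ) : ℂ)) * hi * EE (s : ℂ) := by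
          rw [EE_canc, mul_one]; simp only [mul_assoc]
      _ = _ := by simp only [mul_assoc]
  rw [e1, e2, show r - s = (t - s) + (r - t) by ring]
  exact Fam.mul h1 h2

theorem grest : S_grest := by
  intro s t hst
  unfold Gam
  rw [mul_one, mul_one, EE_rmul, EE_rmul]
  have := Fam.rest (t := t - s) (by linarith)
  rw [show -s + t = t - s by ring, show -t + s = -(t - s) by ring]
  exact this

theorem gshift : S_gshift := by
  intro s t τ h hi h1
  unfold Gam at *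
  have e1 : EE ((-(s + τ) : ℝ) : ℂ) * (EE (τ : ℂ) * h * EE ((-τ : ℝ) : ℂ)) *
      EE ((t + τ : ℝ) : ℂ) = EE ((-s : ℝ) : ℂ) * h * EE (t : ℂ) := by
    calc _ = (EE ((-(s + τ) : ℝ) : ℂ) * EE (τ : ℂ)) * h * (EE ((-τ : ℝ) : ℂ) *
          EE ((t + τ : ℝ) : ℂ)) := by simp only [mul_assoc]
      _ = _ := by
        rw [EE_rmul, EE_rmul, show -(s + τ) + τ = -s by ring, show -τ + (t + τ) = t by ring]
  have e2 : EE ((-(t + τ) : ℝ) : ℂ) * (EE (τ : ℂ) * hi * EE ((-τ : ℝ) : ℂ)) *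
      EE ((s + τ : ℝ) : ℂ) = EE ((-t : ℝ) : ℂ) * hi * EE (s : ℂ) := by
    calc _ = (EE ((-(t + τ) : ℝ) : ℂ) * EE (τ : ℂ)) * hi * (EE ((-τ : ℝ) : ℂ) *
          EE ((s + τ : ℝ) : ℂ)) := by simp only [mul_assoc]
      _ = _ := by
        rw [EE_rmul, EE_rmul, show -(t + τ) + τ = -t by ring, show -τ + (s + τ) = s by ring]
  rw [e1, e2, show t + τ - (s + τ) = t - s by ring]
  exact h1

theorem gsb : S_gsb := by
  intro s t c h hi h1
  unfold Gam at *
  have := Fam.sb c h1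
  rwa [sbR_mul, sbR_mul, sbR_mul, sbR_mul, sbR_EE, sbR_EE, sbR_EE, sbR_EE] at this

theorem ginv : S_ginv := by
  intro s t h hi h1
  unfold Gam at h1
  obtain ⟨i1, i2⟩ := Fam.inv h1
  constructor
  · calc h * hi = EE (s : ℂ) * (EE ((-s : ℝ) : ℂ) * h * EE (t : ℂ) *
          (EE ((-t : ℝ) : ℂ) * hi * EE (s : ℂ))) * EE ((-s : ℝ) : ℂ) := by
          have : EE (s : ℂ) * (EE ((-s : ℝ) : ℂ) * h * EE (t : ℂ) *
            (EE ((-t : ℝ) : ℂ) * hi * EE (s : ℂ))) * EE ((-s : ℝ) : ℂ) =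
            (EE (s : ℂ) * EE ((-s : ℝ) : ℂ)) * h * (EE (t : ℂ) * EE ((-t : ℝ) : ℂ)) * hi *
              (EE (s : ℂ) * EE ((-s : ℝ) : ℂ)) := by simp only [mul_assoc]
          rw [this, EE_canc, EE_canc, one_mul, mul_one, mul_one]
      _ = 1 := by rw [i1, mul_one, EE_canc]
  · calc hi * h = EE (t : ℂ) * (EE ((-t : ℝ) : ℂ) * hi * EE (s : ℂ) *
          (EE ((-s : ℝ) : ℂ) * h * EE (t : ℂ))) * EE ((-t : ℝ) : ℂ) := by
          have : EE (t : ℂ) * (EE ((-t : ℝ) : ℂ) * hi * EE (s : ℂ) *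
            (EE ((-s : ℝ) : ℂ) * h * EE (t : ℂ))) * EE ((-t : ℝ) : ℂ) =
            (EE (t : ℂ) * EE ((-t : ℝ) : ℂ)) * hi * (EE (s : ℂ) * EE ((-s : ℝ) : ℂ)) * h *
              (EE (t : ℂ) * EE ((-t : ℝ) : ℂ)) := by simp only [mul_assoc]
          rw [this, EE_canc, EE_canc, one_mul, mul_one, mul_one]
      _ = 1 := by rw [i2, mul_one, EE_canc]

theorem gbase : S_gbase := by
  intro a b
  unfold Gam
  have h1 := Fam.single one_pos a b
  have e1 : EE ((-0 : ℝ) : ℂ) * (lt 1 a b * EE ((-1 : ℝ) : ℂ)) * EE ((1 : ℝ) : ℂ) =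
      lt 1 a b := by
    rw [neg_zero, Complex.ofReal_zero, EE_zero, one_mul, mul_assoc, EE_canc', mul_one]
  have e2 : EE ((-1 : ℝ) : ℂ) * (EE ((1 : ℝ) : ℂ) * lti 1 a b) * EE ((0 : ℝ) : ℂ) =
      lti 1 a b := by
    rw [Complex.ofReal_zero, EE_zero, mul_one, ← mul_assoc, EE_canc', one_mul]
  rw [e1, e2, sub_zero]
  exact h1

end Pool.Agent.Y253.SM
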