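import Pool.Agent.Y253.SM.OOc
import Pool.Agent.Y253.SM.Gam

/-! Inverses are attained later; commutators; families with a prescribed leading term. -/

open Finset PowerSeries
open H522R3.Spl (A X R E exg E_Grl)

noncomputable section

namespace Pool.Agent.Y253.SM

open OOc GamAux

namespace InvAux

theorem coeff_zero_E (s : ℂ) : coeff 0 (E s) = 1 := (E_Grl s).one

/-- conjugation by `E s` does not change the lowest coefficients -/
theorem conj_low {D : R} {p : ℕ} (hD : ∀ j < p, coeff j D = 0) (s s' : ℂ) :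
    (∀ j < p, coeff j (E s * D * E s') = 0) ∧ coeff p (E s * D * E s') = coeff p D := by
  have h1 : ∀ j ≤ p, coeff j (E s * D) = if j = p then coeff p D else 0 := by
    intro j hj
    rw [coeff_mul]
    split_ifs with hjp
    · subst hjp
      rw [Finset.sum_eq_single (0, j)]
      · rw [coeff_zero_E, one_mul]
      · intro r hr hne
        rw [HasAntidiagonal.mem_antidiagonal] at hr
        have : r.2 < j := by
          by_contra hcon
          apply hne
          ext <;> simp <;> omega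
        rw [hD r.2 this, mul_zero]
      · intro hcon; exact absurd (by simp) hcon
    · refine Finset.sum_eq_zero fun r hr => ?_
      rw [HasAntidiagonal.mem_antidiagonal] at hr
      rw [hD r.2 (by omega), mul_zero]
  have h2 : ∀ j ≤ p, coeff j (E s * D * E s') = if j = p then coeff p D else 0 := by
    intro j hj
    rw [coeff_mul]
    split_ifs with hjp
    · subst hjp
      rw [Finset.sum_eq_single (j, 0)]
      · rw [coeff_zero_E, mul_one, h1 j le_rfl, if_pos rfl]
      · intro r hr hne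
        rw [HasAntidiagonal.mem_antidiagonal] at hr
        have : r.1 < j := by
          by_contra hcon
          apply hne
          ext <;> simp <;> omega
        rw [h1 r.1 (by omega), if_neg (by omega), zero_mul]
      · intro hcon; exact absurd (by simp) hcon
    · refine Finset.sum_eq_zero fun r hr => ?_
      rw [HasAntidiagonal.mem_antidiagonal] at hr
      rw [h1 r.1 (by omega), if_neg (by omega), zero_mul]
  refine ⟨fun j hj => ?_, ?_⟩
  · rw [h2 j hj.le, if_neg (by omega)]
  · rw [h2 p le_rfl, if_pos rfl]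

theorem exists_neg_root {k : ℕ} (hk : 1 ≤ k) : ∃ z : ℂ, z ^ k = -1 :=
  IsAlgClosed.exists_pow_nat_eq _ (by omega)

theorem conj_sub_one (s : ℝ) (h : RR) : EE (s : ℂ) * h * EE ((-s : ℝ) : ℂ) - 1 =
    EE (s : ℂ) * (h - 1) * EE ((-s : ℝ) : ℂ) := by
  rw [mul_sub, sub_mul, mul_one, EE_canc]

theorem sbR_sub_one (c : ℂ) (h : RR) : sbR c h - 1 = sbR c (h - 1) := by
  have : sbR c (h - 1) = sbR c h - sbR c 1 := by unfold sbR; rw [map_sub]
  rw [this, sbR_one]

end InvAux

open InvAux

theorem inv_step {q m : ℕ} (k p : ℕ) (hk : 1 ≤ k) (hp : p < q)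
    (ih : ∀ (c t : ℝ) (h hi : RR), 0 ≤ c → c ≤ t → Gam 0 c h hi → OO q k (h - 1) →
      (∀ j < p + 1, coeff j (lc k (h - 1)) = 0) →
      ∃ (r : ℝ) (h' hi' : RR), t ≤ r ∧ Gam t r h' hi' ∧ OO q m (h * h' - 1)) :
    ∀ (c t : ℝ) (h hi : RR), 0 ≤ c → c ≤ t → Gam 0 c h hi → OO q k (h - 1) →
      (∀ j < p, coeff j (lc k (h - 1)) = 0) →
      ∃ (r : ℝ) (h' hi' : RR), t ≤ r ∧ Gam t r h' hi' ∧ OO q m (h * h' - 1) := by
  intro c t h hi hc hct hG hO hD
  obtain ⟨z, hz⟩ := exists_neg_root hk
  set B : RR := EE (t : ℂ) * sbR z h * EE ((-t : ℝ) : ℂ) with hB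
  set Bi : RR := EE (t : ℂ) * sbR z hi * EE ((-t : ℝ) : ℂ) with hBi
  have g1 : Gam t (c + t) B Bi := by
    have := gshift 0 c t _ _ (gsb 0 c z _ _ hG)
    rwa [zero_add] at this
  have g2 : Gam 0 t h hi := by
    have := gmul 0 c t _ _ _ _ hG (grest c t hct)
    rwa [mul_one, one_mul] at this
  have g3 : Gam 0 (c + t) (h * B) (Bi * hi) := gmul 0 t (c + t) _ _ _ _ g2 g1
  obtain ⟨s1, s2⟩ := osb q k z (h - 1) hO
  obtain ⟨c1, c2⟩ := oconj q k t (sbR z (h - 1)) s1
  rw [← sbR_sub_one, ← conj_sub_one, ← hB] at c1 c2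
  obtain ⟨m1, m2⟩ := oone q k h B hk hO c1
  have hlow : ∀ j < p + 1, coeff j (lc k (h * B - 1)) = 0 := by
    intro j hj
    rw [m2 j (by omega), c2 j (by omega)]
    have e1 : ∀ i, coeff i (lc k (sbR z h - 1)) = -coeff i (lc k (h - 1)) := by
      intro i
      rw [sbR_sub_one, s2, hz, neg_smul, one_smul]
    have e2 : ∀ i < p, coeff i (lc k (sbR z h - 1)) = 0 := fun i hi' => by
      rw [e1, hD i hi', neg_zero]
    obtain ⟨l1, l2⟩ := conj_low e2 (t : ℂ) ((-t : ℝ) : ℂ)
    rcases Nat.lt_succ_iff_lt_or_eq.1 hj with h1 | h1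
    · rw [l1 j h1, hD j h1, add_zero]
    · subst h1
      rw [l2, e1, add_neg_cancel]
  obtain ⟨r, h', hi', hr, g4, o4⟩ := ih (c + t) (c + t) _ _ (by linarith) le_rfl g3 m1 hlow
  refine ⟨r, B * h', hi' * Bi, by linarith, gmul t (c + t) r _ _ _ _ g1 g4, ?_⟩
  rwa [← mul_assoc]

theorem inv_all (q m : ℕ) : ∀ (d k : ℕ), 1 ≤ k → m ≤ k + d → ∀ (e p : ℕ), q ≤ p + e →
    ∀ (c t : ℝ) (h hi : RR), 0 ≤ c → c ≤ t → Gam 0 c h hi → OO q k (h - 1) →
      (∀ j < p, j < q → coeff j (lc k (h - 1)) = 0) →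
      ∃ (r : ℝ) (h' hi' : RR), t ≤ r ∧ Gam t r h' hi' ∧ OO q m (h * h' - 1) := by
  intro d
  induction d with
  | zero =>
    intro k hk hm e p _ c t h hi hc hct hG hO _
    refine ⟨t, 1, 1, le_rfl, grest t t le_rfl, ?_⟩
    rw [mul_one]
    exact oo_mono (by omega) hO
  | succ d ihd =>
    intro k hk hm e
    induction e with
    | zero =>
      intro p hp c t h hi hc hct hG hO hD
      have hO' : OO q (k + 1) (h - 1) := oo_succ hO fun j hj => hD j (by omega) hj
      exact ihd (k + 1) (by omega) (by omega) q 0 (by omega) c t h hi hc hct hG hO'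
        (fun j hj => absurd hj (by omega))
    | succ e ihe =>
      intro p hp c t h hi hc hct hG hO hD
      rcases Nat.lt_or_ge p q with hpq | hpq
      · refine inv_step k p hk hpq ?_ c t h hi hc hct hG hO (fun j hj => hD j hj (by omega))
        intro c t h hi hc hct hG hO hD'
        exact ihe (p + 1) (by omega) c t h hi hc hct hG hO (fun j hj _ => hD' j hj)
      · exact ihe p (by omega) c t h hi hc hct hG hO hD

theorem inv : S_INV := by
  intro q m k c t h hi hk hc hct hG hO
  exact inv_all q m m k hk (by omega) q 0 (by omega) c t h hi hc hct hG hO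
    (fun j hj => absurd hj (by omega))

end Pool.Agent.Y253.SM
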