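import Pool.Agent.Y253.SM.Cone

/-! The functional of the cone argument vanishes. -/

open Finset PowerSeries Filter Topology
open H522R3.Spl (A X M L R W E Rel X_mem L_succ_mem)

noncomputable section

namespace Pool.Agent.Y253.SM

theorem Mon.mem_L : ∀ {j : ℕ} {v : A}, Mon j v → v ∈ L j := by
  intro j v h
  induction h with
  | base b => exact X_mem b
  | brk b _ ih => exact L_succ_mem ih (X_mem b)

theorem L_le_span : ∀ j : ℕ, L j ≤ Submodule.span ℂ {v | Mon j v} := by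
  intro j
  induction j with
  | zero =>
    change M ≤ _
    refine Submodule.span_le.2 ?_
    rintro _ ⟨b, rfl⟩
    exact Submodule.subset_span (Mon.base b)
  | succ j ih =>
    refine Submodule.span_le.2 ?_
    rintro z ⟨l, hl, b, rfl⟩
    have h1 := ih hl
    induction h1 using Submodule.span_induction with
    | mem x h => exact Submodule.subset_span (Mon.brk b h)
    | zero =>
      have : (0 : A) * X b - X b * 0 = 0 := by rw [zero_mul, mul_zero, sub_zero]
      change (0 : A) * X b - X b * 0 ∈ _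
      rw [this]; exact Submodule.zero_mem _
    | add x y hx0 hy0 hx hy =>
      have hx' := hx (Submodule.span_le.2 (fun v (hv : Mon j v) => hv.mem_L) hx0)
      have hy' := hy (Submodule.span_le.2 (fun v (hv : Mon j v) => hv.mem_L) hy0)
      have : (x + y) * X b - X b * (x + y) = (x * X b - X b * x) + (y * X b - X b * y) := by
        noncomm_ring
      change (x + y) * X b - X b * (x + y) ∈ _
      rw [this]; exact Submodule.add_mem _ hx' hy'
    | smul a x hx0 hx =>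
      have hx' := hx (Submodule.span_le.2 (fun v (hv : Mon j v) => hv.mem_L) hx0)
      have : (a • x) * X b - X b * (a • x) = a • (x * X b - X b * x) := by
        rw [smul_mul_assoc, mul_smul_comm, smul_sub]
      change (a • x) * X b - X b * (a • x) ∈ _
      rw [this]; exact Submodule.smul_mem _ _ hx'

theorem nonneg_of_est (h1 : S_EST) (h2 : S_MON) {κ : ℝ} {n : ℕ} {R0 δ0 : ℝ} (hκ : 0 < κ)
    (hδ : 0 < δ0) (hP : PP κ (n + 1) R0 δ0) {ℓ : A →+ ℝ}
    (hr : ∀ (t : ℝ) (x : A), ℓ ((t : ℂ) • x) = t * ℓ x) {C : ℝ} (hC : 0 ≤ C)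
    (hb : ∀ x ∈ L (n + 1), |ℓ x| ≤ C * ‖x‖)
    (hpos : ∀ (e : ℝ) (w : A) (l : List (ℂ × ℂ)), 0 < e → w ∈ L (n + 1) → PosK κ l →
      Rel (n + 1 + 1) (W l) (E (e : ℂ)) w → 0 ≤ ℓ w) {v : A} (hv : Mon (n + 1) v) (ω : ℂ) :
    0 ≤ ℓ (ω • v) := by
  obtain ⟨k, c, h, hi, hk, hc, hG, hO, hz, hlead⟩ := h2 (n + 1) v hv ω (n + 3) (by omega)
  obtain ⟨C', τ₀, hC', hτ₀, hest⟩ := h1 κ n R0 δ0 hκ hδ hP k c h hi (ω • v) hk hc hG hO hz hlead
  by_contra hneg
  push Not at hneg
  set a := -ℓ (ω • v) with ha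
  have hapos : 0 < a := by rw [ha]; linarith
  obtain ⟨τ, hτ0, hτ1, hτ2⟩ : ∃ τ : ℝ, 0 < τ ∧ τ < τ₀ ∧ C * C' * τ < a := by
    refine ⟨min (τ₀ / 2) (a / (2 * (C * C' + 1))), by positivity, ?_, ?_⟩
    · exact (min_le_left _ _).trans_lt (by linarith)
    · have h1 : min (τ₀ / 2) (a / (2 * (C * C' + 1))) ≤ a / (2 * (C * C' + 1)) := min_le_right _ _
      have h3 : 0 ≤ C * C' := mul_nonneg hC hC'
      calc C * C' * min (τ₀ / 2) (a / (2 * (C * C' + 1)))
          ≤ C * C' * (a / (2 * (C * C' + 1))) := mul_le_mul_of_nonneg_left h1 h3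
        _ ≤ (C * C' + 1) * (a / (2 * (C * C' + 1))) :=
            mul_le_mul_of_nonneg_right (by linarith) (by positivity)
        _ = a / 2 := by field_simp
        _ < a := by linarith
  obtain ⟨e, w, l, he, hw, hl, hrel, hn⟩ := hest τ hτ0 hτ1
  have h3 := hpos e w l he hw hl hrel
  set m := (n + 1) * k with hm
  have hvL : ω • v ∈ L (n + 1) := Submodule.smul_mem _ _ hv.mem_L
  have h4 : w - (((τ ^ m : ℝ)) : ℂ) • (ω • v) ∈ L (n + 1) :=
    Submodule.sub_mem _ hw (Submodule.smul_mem _ _ hvL)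
  have h5 := (abs_le.1 (hb _ h4)).2
  rw [map_sub, hr] at h5
  have h6 : C * ‖w - (((τ ^ m : ℝ)) : ℂ) • (ω • v)‖ ≤ C * (C' * τ ^ (m + 1)) :=
    mul_le_mul_of_nonneg_left hn hC
  have h7 : 0 < τ ^ m := by positivity
  have h8 : C * (C' * τ ^ (m + 1)) = τ ^ m * (C * C' * τ) := by rw [pow_succ]; ring
  have h9 : τ ^ m * (C * C' * τ) < τ ^ m * a := mul_lt_mul_of_pos_left hτ2 h7
  have h10 : τ ^ m * ℓ (ω • v) = - (τ ^ m * a) := by rw [ha]; ring
  linarith

theorem key (h1 : S_EST) (h2 : S_MON) : S_KEY := by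
  intro κ n R0 δ0 hκ hδ hP ℓ hr C hC hb hpos z hz
  have h3 : ∀ v, Mon (n + 1) v → ∀ ω : ℂ, ℓ (ω • v) = 0 := by
    intro v hv ω
    have e1 := nonneg_of_est h1 h2 hκ hδ hP hr hC hb hpos hv ω
    have e2 := nonneg_of_est h1 h2 hκ hδ hP hr hC hb hpos hv (-ω)
    rw [neg_smul, map_neg] at e2
    linarith
  have h4 : ∀ ω : ℂ, ℓ (ω • z) = 0 := by
    have h5 := L_le_span (n + 1) hz
    clear hz
    induction h5 using Submodule.span_induction with
    | mem x h => exact h3 x h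
    | zero => intro ω; rw [smul_zero, map_zero]
    | add x y _ _ hx hy => intro ω; rw [smul_add, map_add, hx, hy, add_zero]
    | smul a x _ hx => intro ω; rw [smul_smul]; exact hx _
  have := h4 1
  rwa [one_smul] at this

end Pool.Agent.Y253.SM
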